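import Mathlib

set_option autoImplicit false

/-!
# Radii of the concentric rings

We solve, for every `N`, the discrete boundary value problem which describes a ring-shaped
geodesic net with dihedral symmetry.  `hh s t` is the inward pull at distance `t` exerted by a vertex
at distance `s` on the perpendicular axis, and `ff t` is the outward pull exerted by the fixed
outer points.
-/

namespace Pool.Agent.Lib.MP_1ce9e9_gt

open Finset

/-- half of the inward force at `(t,0)` coming from the two vertices `(0, ± s)` -/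
noncomputable def hh (s t : ℝ) : ℝ := t / √(s ^ 2 + t ^ 2)

/-- half of the outward force at `(t,0)` coming from the four points `(2, ± 1/2)`, `(2, ± 3/2)` -/
noncomputable def ff (t : ℝ) : ℝ :=
  (2 - t) / √((2 - t) ^ 2 + (1 / 2) ^ 2) + (2 - t) / √((2 - t) ^ 2 + (3 / 2) ^ 2)

noncomputable def UU (t : ℝ) : ℝ :=
  √((2 - t) ^ 2 + (1 / 2) ^ 2) + √((2 - t) ^ 2 + (3 / 2) ^ 2)

lemma hh_self {t : ℝ} (ht : 0 < t) : hh t t = 1 / √2 := by
  unfold hh
  have h1 : √(t ^ 2 + t ^ 2) = t * √2 := by
    rw [show t ^ 2 + t ^ 2 = t ^ 2 * 2 by ring, Real.sqrt_mul (by positivity),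
      Real.sqrt_sq ht.le]
  rw [h1]
  have : √2 ≠ 0 := by positivity
  field_simp

lemma hh_anti {s s' t : ℝ} (hs : 0 < s) (ht : 0 < t) (h : s ≤ s') : hh s' t ≤ hh s t := by
  unfold hh
  have h2 : s ^ 2 ≤ s' ^ 2 := by gcongr
  gcongr

lemma hh_strictAnti {s s' t : ℝ} (hs : 0 < s) (ht : 0 < t) (h : s < s') : hh s' t < hh s t := by
  unfold hh
  have h2 : s ^ 2 < s' ^ 2 := by gcongr
  gcongr

lemma div_sqrt_strictMono {q x y : ℝ} (hq : 0 < q) (hx : 0 < x) (hxy : x < y) :
    x / √(x ^ 2 + q ^ 2) < y / √(y ^ 2 + q ^ 2) := by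
  have hy : 0 < y := hx.trans hxy
  have e1 : x / √(x ^ 2 + q ^ 2) = √(x ^ 2 / (x ^ 2 + q ^ 2)) := by
    rw [Real.sqrt_div (by positivity), Real.sqrt_sq hx.le]
  have e2 : y / √(y ^ 2 + q ^ 2) = √(y ^ 2 / (y ^ 2 + q ^ 2)) := by
    rw [Real.sqrt_div (by positivity), Real.sqrt_sq hy.le]
  rw [e1, e2]
  apply Real.sqrt_lt_sqrt (by positivity)
  rw [div_lt_div_iff₀ (by positivity) (by positivity)]
  have : x ^ 2 < y ^ 2 := by gcongr
  nlinarith [mul_pos hq hq]

lemma ff_strictAnti {t t' : ℝ} (h : t < t') (ht' : t' < 2) : ff t' < ff t := by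
  unfold ff
  have h1 := div_sqrt_strictMono (q := 1/2) (x := 2 - t') (y := 2 - t) (by norm_num)
    (by linarith) (by linarith)
  have h2 := div_sqrt_strictMono (q := 3/2) (x := 2 - t') (y := 2 - t) (by norm_num)
    (by linarith) (by linarith)
  linarith

/-- upper end: `ff (11/10) < 7/5` -/
lemma ff_a : ff (11 / 10) < 7 / 5 := by
  unfold ff
  have h1 : (2 - 11 / 10 : ℝ) / √((2 - 11 / 10) ^ 2 + (1 / 2) ^ 2) < 22 / 25 := by
    rw [div_lt_iff₀ (by positivity)]
    have : (225 / 220 : ℝ) < √((2 - 11 / 10) ^ 2 + (1 / 2) ^ 2) := by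
      apply Real.lt_sqrt_of_sq_lt; norm_num
    linarith
  have h2 : (2 - 11 / 10 : ℝ) / √((2 - 11 / 10) ^ 2 + (3 / 2) ^ 2) < 26 / 50 := by
    rw [div_lt_iff₀ (by positivity)]
    have : (45 / 26 : ℝ) < √((2 - 11 / 10) ^ 2 + (3 / 2) ^ 2) := by
      apply Real.lt_sqrt_of_sq_lt; norm_num
    linarith
  linarith

/-- lower end: `3/2 < ff (9/10)` -/
lemma ff_b : 3 / 2 < ff (9 / 10) := by
  unfold ff
  have h1 : (91 / 100 : ℝ) < (2 - 9 / 10 : ℝ) / √((2 - 9 / 10) ^ 2 + (1 / 2) ^ 2) := by
    rw [lt_div_iff₀ (by positivity)]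
    have : √((2 - 9 / 10 : ℝ) ^ 2 + (1 / 2) ^ 2) < 110 / 91 := by
      rw [Real.sqrt_lt' (by norm_num)]; norm_num
    linarith
  have h2 : (59 / 100 : ℝ) < (2 - 9 / 10 : ℝ) / √((2 - 9 / 10) ^ 2 + (3 / 2) ^ 2) := by
    rw [lt_div_iff₀ (by positivity)]
    have : √((2 - 9 / 10 : ℝ) ^ 2 + (3 / 2) ^ 2) < 110 / 59 := by
      rw [Real.sqrt_lt' (by norm_num)]; norm_num
    linarith
  linarith

lemma one_div_sqrt_two_lb : 7 / 10 ≤ 1 / √2 := by
  rw [div_le_div_iff₀ (by norm_num) (by positivity)]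
  have : √2 < 10 / 7 := by rw [Real.sqrt_lt' (by norm_num)]; norm_num
  linarith

lemma one_div_sqrt_two_ub : 1 / √2 ≤ 3 / 4 := by
  rw [div_le_div_iff₀ (by positivity) (by norm_num)]
  have : 4 / 3 < √2 := by apply Real.lt_sqrt_of_sq_lt; norm_num
  linarith

lemma hasDerivAt_D {s t : ℝ} (hs : 0 < s) :
    HasDerivAt (fun t => √(s ^ 2 + t ^ 2)) (hh s t) t := by
  have h1 : HasDerivAt (fun t => s ^ 2 + t ^ 2) (2 * t) t := by
    simpa using (hasDerivAt_pow 2 t).const_add (s ^ 2)
  have h2 := h1.sqrt (by positivity)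
  convert h2 using 1
  unfold hh
  have : √(s ^ 2 + t ^ 2) ≠ 0 := by positivity
  field_simp

lemma hasDerivAt_sqrtq {q t : ℝ} (hq : 0 < q) :
    HasDerivAt (fun t => √((2 - t) ^ 2 + q ^ 2)) (-((2 - t) / √((2 - t) ^ 2 + q ^ 2))) t := by
  have h0 : HasDerivAt (fun t : ℝ => 2 - t) (-1) t := by
    simpa using (hasDerivAt_id t).const_sub 2
  have h1 : HasDerivAt (fun t : ℝ => (2 - t) ^ 2 + q ^ 2) (2 * (2 - t) * (-1)) t := by
    have := (h0.pow 2).add_const (q ^ 2)
    simpa using this
  have h2 := h1.sqrt (by positivity)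
  convert h2 using 1
  have : √((2 - t) ^ 2 + q ^ 2) ≠ 0 := by positivity
  field_simp

lemma hasDerivAt_U (t : ℝ) : HasDerivAt UU (-(ff t)) t := by
  have h1 := hasDerivAt_sqrtq (q := 1/2) (t := t) (by norm_num)
  have h2 := hasDerivAt_sqrtq (q := 3/2) (t := t) (by norm_num)
  have h3 := h1.add h2
  have h4 : UU = (fun t => √((2 - t) ^ 2 + (1 / 2) ^ 2)) + fun t => √((2 - t) ^ 2 + (3 / 2) ^ 2) := by
    funext x; simp [UU]
  rw [h4]
  exact h3.congr_deriv (by unfold ff; ring)

/-- local energy -/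
noncomputable def psi (s s' t : ℝ) : ℝ := √(s ^ 2 + t ^ 2) + √(s' ^ 2 + t ^ 2) + UU t

lemma hasDerivAt_psi {s s' t : ℝ} (hs : 0 < s) (hs' : 0 < s') :
    HasDerivAt (psi s s') (hh s t + hh s' t - ff t) t := by
  have h3 := ((hasDerivAt_D (s := s) (t := t) hs).add (hasDerivAt_D (s := s') (t := t) hs')).add
    (hasDerivAt_U t)
  have h4 : psi s s' = ((fun t => √(s ^ 2 + t ^ 2)) + fun t => √(s' ^ 2 + t ^ 2)) + UU := by
    funext x; simp [psi]
  rw [h4]
  exact h3.congr_deriv (by ring)

/-- If `psi` is minimal on `[b,a]` at `t`, then the derivative vanishes, given the signs of the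
derivative at the two ends. -/
lemma psi_crit {s s' t a b : ℝ} (hs : 0 < s) (hs' : 0 < s') (hab : b < a)
    (htb : b ≤ t) (hta : t ≤ a)
    (hmin : ∀ x, b ≤ x → x ≤ a → psi s s' t ≤ psi s s' x)
    (hA : 0 < hh s a + hh s' a - ff a) (hB : hh s b + hh s' b - ff b < 0) :
    b < t ∧ t < a ∧ hh s t + hh s' t - ff t = 0 := by
  have hta' : t < a := by
    rcases hta.lt_or_eq with h | h
    · exact h
    · exfalso
      subst h
      have hd := hasDerivAt_psi (s := s) (s' := s') (t := t) hs hs'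
      have hs1 := (hasDerivAt_iff_tendsto_slope.1 hd).eventually (lt_mem_nhds hA)
      have hs2 : ∀ᶠ x in nhdsWithin t (Set.Iio t), 0 < slope (psi s s') t x :=
        hs1.filter_mono (nhdsWithin_mono _ (fun x hx => ne_of_lt hx))
      have hs3 : ∀ᶠ x in nhdsWithin t (Set.Iio t), x ∈ Set.Ioo b t :=
        Ioo_mem_nhdsLT hab
      obtain ⟨x, hx1, hx2⟩ := (hs2.and hs3).exists
      rw [slope_def_field] at hx1
      have h5 := hmin x hx2.1.le hx2.2.le
      have h6 : (psi s s' x - psi s s' t) / (x - t) ≤ 0 :=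
        div_nonpos_of_nonneg_of_nonpos (by linarith) (by linarith [hx2.2])
      linarith
  have htb' : b < t := by
    rcases htb.lt_or_eq with h | h
    · exact h
    · exfalso
      subst h
      have hd := hasDerivAt_psi (s := s) (s' := s') (t := b) hs hs'
      have hs1 := (hasDerivAt_iff_tendsto_slope.1 hd).eventually (gt_mem_nhds hB)
      have hs2 : ∀ᶠ x in nhdsWithin b (Set.Ioi b), slope (psi s s') b x < 0 :=
        hs1.filter_mono (nhdsWithin_mono _ (fun x hx => ne_of_gt hx))
      have hs3 : ∀ᶠ x in nhdsWithin b (Set.Ioi b), x ∈ Set.Ioo b a :=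
        Ioo_mem_nhdsGT hab
      obtain ⟨x, hx1, hx2⟩ := (hs2.and hs3).exists
      rw [slope_def_field] at hx1
      have h5 := hmin x hx2.1.le hx2.2.le
      have h6 : 0 ≤ (psi s s' x - psi s s' b) / (x - b) :=
        div_nonneg (by linarith) (by linarith [hx2.1])
      linarith
  refine ⟨htb', hta', ?_⟩
  apply IsLocalMin.hasDerivAt_eq_zero _ (hasDerivAt_psi hs hs')
  filter_upwards [Ioo_mem_nhds htb' hta'] with x hx
  exact hmin x hx.1.le hx.2.le

noncomputable def FF (k : ℕ) (r : ℕ → ℝ) : ℝ := √((r k) ^ 2 + (r (k + 1)) ^ 2) + UU (r k)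

noncomputable def EE (N : ℕ) (r : ℕ → ℝ) : ℝ := ∑ k ∈ range (N + 1), FF k r

lemma continuous_UU : Continuous UU := by
  unfold UU; fun_prop

lemma continuous_EE (N : ℕ) : Continuous (EE N) := by
  unfold EE FF
  refine continuous_finset_sum _ (fun k _ => ?_)
  refine Continuous.add (by fun_prop) (continuous_UU.comp (continuous_apply k))

lemma EE_update (N j : ℕ) (hj : j < N) (r : ℕ → ℝ) (x : ℝ) :
    EE N (Function.update r (j + 1) x) - EE N r =
      psi (r j) (r (j + 2)) x - psi (r j) (r (j + 2)) (r (j + 1)) := by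
  unfold EE
  rw [← Finset.sum_sub_distrib]
  have hsub : ({j, j + 1} : Finset ℕ) ⊆ range (N + 1) := by
    intro k hk
    simp only [Finset.mem_insert, Finset.mem_singleton] at hk
    rw [Finset.mem_range]
    omega
  rw [← Finset.sum_subset hsub]
  · rw [Finset.sum_pair (by omega)]
    unfold FF psi
    have e1 : Function.update r (j + 1) x (j + 1) = x := Function.update_self ..
    have e2 : Function.update r (j + 1) x j = r j := Function.update_of_ne (by omega) ..
    have e3 : Function.update r (j + 1) x (j + 1 + 1) = r (j + 1 + 1) :=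
      Function.update_of_ne (by omega) ..
    rw [e1, e2, e3]
    have e4 : √(x ^ 2 + r (j + 1 + 1) ^ 2) = √(r (j + 2) ^ 2 + x ^ 2) := by
      rw [add_comm]
    have e5 : √(r (j + 1) ^ 2 + r (j + 1 + 1) ^ 2) = √(r (j + 2) ^ 2 + r (j + 1) ^ 2) := by
      rw [add_comm]
    rw [e4, e5]
    ring
  · intro k hk hk2
    simp only [Finset.mem_insert, Finset.mem_singleton, not_or] at hk2
    unfold FF
    rw [Function.update_of_ne (by omega), Function.update_of_ne (by omega)]
    ring

/-- Existence of a solution of the discrete boundary value problem. -/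
theorem exists_solution (N : ℕ) : ∃ r : ℕ → ℝ, r 0 = 11 / 10 ∧ r (N + 1) = 9 / 10 ∧
    (∀ k, 9 / 10 ≤ r k ∧ r k ≤ 11 / 10) ∧
    (∀ j < N, 9 / 10 < r (j + 1) ∧ r (j + 1) < 11 / 10 ∧
      hh (r j) (r (j + 1)) + hh (r (j + 2)) (r (j + 1)) - ff (r (j + 1)) = 0) := by
  set box : (i : ℕ) → Set ℝ := fun i =>
    if i = 0 then {11 / 10} else if N + 1 ≤ i then {9 / 10} else Set.Icc (9 / 10) (11 / 10)
    with hbox
  have hcomp : IsCompact (Set.univ.pi box) := by
    apply isCompact_univ_pi
    intro i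
    simp only [hbox]
    split_ifs
    · exact isCompact_singleton
    · exact isCompact_singleton
    · exact isCompact_Icc
  have hne : (Set.univ.pi box).Nonempty := by
    refine ⟨fun i => if i = 0 then 11 / 10 else 9 / 10, ?_⟩
    intro i _
    simp only [hbox]
    split_ifs with h1 h2
    · rfl
    · rfl
    · constructor <;> norm_num
  obtain ⟨r, hr, hmin⟩ := hcomp.exists_isMinOn hne (continuous_EE N).continuousOn
  have h0 : r 0 = 11 / 10 := by
    have := hr 0 (Set.mem_univ _)
    simpa [hbox] using this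
  have h1 : r (N + 1) = 9 / 10 := by
    have := hr (N + 1) (Set.mem_univ _)
    simpa [hbox] using this
  have hall : ∀ k, 9 / 10 ≤ r k ∧ r k ≤ 11 / 10 := by
    intro k
    have := hr k (Set.mem_univ _)
    simp only [hbox] at this
    split_ifs at this with h1 h2
    · rw [Set.mem_singleton_iff] at this; rw [this]; constructor <;> norm_num
    · rw [Set.mem_singleton_iff] at this; rw [this]; constructor <;> norm_num
    · exact this
  refine ⟨r, h0, h1, hall, ?_⟩
  intro j hj
  have hlb := one_div_sqrt_two_lb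
  have hub := one_div_sqrt_two_ub
  have key := psi_crit (s := r j) (s' := r (j + 2)) (t := r (j + 1)) (a := 11 / 10) (b := 9 / 10)
    (by linarith [(hall j).1]) (by linarith [(hall (j + 2)).1]) (by norm_num)
    (hall (j + 1)).1 (hall (j + 1)).2 ?_ ?_ ?_
  · exact ⟨key.1, key.2.1, key.2.2⟩
  · intro x hx1 hx2
    have hmem : Function.update r (j + 1) x ∈ Set.univ.pi box := by
      intro i _
      by_cases hi : i = j + 1
      · subst hi
        rw [Function.update_self]
        simp only [hbox]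
        rw [if_neg (by omega), if_neg (by omega)]
        exact ⟨hx1, hx2⟩
      · rw [Function.update_of_ne hi]
        exact hr i (Set.mem_univ _)
    have h3 := hmin hmem
    simp only [Set.mem_setOf_eq] at h3
    have h4 := EE_update N j hj r x
    linarith
  · have e1 := hh_anti (s := r j) (s' := 11 / 10) (t := 11 / 10) (by linarith [(hall j).1])
      (by norm_num) (hall j).2
    have e2 := hh_anti (s := r (j + 2)) (s' := 11 / 10) (t := 11 / 10)
      (by linarith [(hall (j + 2)).1]) (by norm_num) (hall (j + 2)).2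
    have e3 := hh_self (t := 11 / 10) (by norm_num)
    have e4 := ff_a
    linarith
  · have e1 := hh_anti (s := 9 / 10) (s' := r j) (t := 9 / 10) (by norm_num)
      (by norm_num) (hall j).1
    have e2 := hh_anti (s := 9 / 10) (s' := r (j + 2)) (t := 9 / 10)
      (by norm_num) (by norm_num) (hall (j + 2)).1
    have e3 := hh_self (t := 9 / 10) (by norm_num)
    have e4 := ff_b
    linarith

/-- Existence of the radii, strictly decreasing. -/
theorem exists_radii (N : ℕ) : ∃ r : ℕ → ℝ, r 0 = 11 / 10 ∧ r (N + 1) = 9 / 10 ∧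
    (∀ k, 9 / 10 ≤ r k ∧ r k ≤ 11 / 10) ∧
    (∀ k ≤ N, r (k + 1) < r k) ∧
    (∀ j < N, hh (r j) (r (j + 1)) + hh (r (j + 2)) (r (j + 1)) = ff (r (j + 1))) := by
  obtain ⟨r, h0, h1, hall, hsol⟩ := exists_solution N
  refine ⟨r, h0, h1, hall, ?_, fun j hj => by linarith [(hsol j hj).2.2]⟩
  have hpos : ∀ k, 0 < r k := fun k => by linarith [(hall k).1]
  -- interior local minima have `ff ≤ 2/√2`
  have hlocmin : ∀ j < N, r (j + 1) ≤ r j → r (j + 1) ≤ r (j + 2) →
      ff (r (j + 1)) ≤ 2 * (1 / √2) := by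
    intro j hj e1 e2
    have e3 := hh_anti (hpos (j + 1)) (hpos (j + 1)) e1
    have e4 := hh_anti (hpos (j + 1)) (hpos (j + 1)) e2
    have e5 := hh_self (hpos (j + 1))
    have e6 := (hsol j hj).2.2
    linarith
  have hlocmax : ∀ j < N, r j ≤ r (j + 1) → r (j + 2) ≤ r (j + 1) →
      2 * (1 / √2) ≤ ff (r (j + 1)) := by
    intro j hj e1 e2
    have e3 := hh_anti (hpos j) (hpos (j + 1)) e1
    have e4 := hh_anti (hpos (j + 2)) (hpos (j + 1)) e2
    have e5 := hh_self (hpos (j + 1))
    have e6 := (hsol j hj).2.2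
    linarith
  -- weak monotonicity
  have hweak : ∀ k ≤ N, r (k + 1) ≤ r k := by
    intro k hk
    by_contra hcon
    push Not at hcon
    -- minimum over [0,k+1]
    obtain ⟨i, hi, himin⟩ := Finset.exists_min_image (range (k + 2)) r ⟨0, by simp⟩
    obtain ⟨j, hj, hjmax⟩ := Finset.exists_max_image (Finset.Icc k (N + 1)) r ⟨k, by simp; omega⟩
    rw [Finset.mem_range] at hi
    rw [Finset.mem_Icc] at hj
    have hik : r i ≤ r k := himin k (by simp)
    have hi0 : i ≠ 0 := by
      rintro rfl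
      have : r (k + 1) ≤ 11 / 10 := (hall (k + 1)).2
      linarith
    have hik1 : i ≠ k + 1 := by
      rintro rfl
      linarith
    have hjk : r (k + 1) ≤ r j := hjmax (k + 1) (by simp; omega)
    have hjk0 : j ≠ k := by
      rintro rfl
      linarith
    have hjN : j ≠ N + 1 := by
      rintro rfl
      have : 9 / 10 ≤ r k := (hall k).1
      linarith
    obtain ⟨i', rfl⟩ : ∃ i', i = i' + 1 := ⟨i - 1, by omega⟩
    obtain ⟨j', rfl⟩ : ∃ j', j = j' + 1 := ⟨j - 1, by omega⟩
    have f1 := hlocmin i' (by omega) (himin i' (by simp; omega)) (himin (i' + 2) (by simp; omega))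
    have f2 := hlocmax j' (by omega) (hjmax j' (by simp; omega)) (hjmax (j' + 2) (by simp; omega))
    have f3 : r (i' + 1) < r (j' + 1) := by linarith
    have f4 := ff_strictAnti f3 (by linarith [(hall (j' + 1)).2])
    linarith
  -- strict monotonicity
  intro k hk
  by_contra hcon
  push Not at hcon
  have hex : ∃ k, k ≤ N ∧ r k ≤ r (k + 1) := ⟨k, hk, hcon⟩
  classical
  obtain ⟨hm1, hm2⟩ := Nat.find_spec hex
  set m := Nat.find hex with hm
  have hm0 : m ≠ 0 := by
    intro h
    rw [h] at hm2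
    rcases Nat.eq_zero_or_pos N with hN | hN
    · subst hN
      rw [h0, h1] at hm2
      norm_num at hm2
    · have := (hsol 0 hN).2.1
      rw [h0] at hm2
      simp only [zero_add] at this hm2
      linarith
  have hmN : m ≠ N := by
    intro h
    rw [h, h1] at hm2
    have hN : N ≠ 0 := by omega
    obtain ⟨N', rfl⟩ : ∃ N', N = N' + 1 := ⟨N - 1, by omega⟩
    have := (hsol N' (by omega)).1
    linarith
  obtain ⟨i, hi⟩ : ∃ i, m = i + 1 := ⟨m - 1, by omega⟩
  have hprev : r (i + 1) < r i := by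
    have := Nat.find_min hex (m := i) (by omega)
    push Not at this
    exact this (by omega)
  rw [hi] at hm2
  have heq : r (i + 1) = r (i + 2) := le_antisymm hm2 (hweak (i + 1) (by omega))
  have g1 : ff (r (i + 1)) < 2 * (1 / √2) := by
    have e3 := hh_strictAnti (hpos (i + 1)) (hpos (i + 1)) hprev
    have e4 := hh_anti (hpos (i + 1)) (hpos (i + 1)) heq.le
    have e5 := hh_self (hpos (i + 1))
    have e6 := (hsol i (by omega)).2.2
    linarith
  have g2 : 2 * (1 / √2) ≤ ff (r (i + 1 + 1)) := by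
    apply hlocmax (i + 1) (by omega) hm2
    exact hweak (i + 2) (by omega)
  have g3 : r (i + 1 + 1) = r (i + 1) := heq.symm
  rw [g3] at g2
  linarith

end Pool.Agent.Lib.MP_1ce9e9_gt
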