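import Mathlib

set_option autoImplicit false

/-!
# Subdividing a straight-line drawing at its crossings

A finite straight-line drawing in the plane (edges may cross, but two different edges have at most
one common point) becomes a planar net after subdividing at all crossings.  The sum of unit vectors
at a vertex of the drawing does not change, and the new vertices are balanced.
-/

namespace Pool.Agent.Lib.MP_1ce9e9_gt

/-- unit vector from `z` in the direction of `w` -/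
noncomputable def dir (z w : ℂ) : ℂ := (w - z) / ((‖w - z‖ : ℝ) : ℂ)

/-- equality of undirected edges -/
def SameEdge (a b c d : ℂ) : Prop := (a = c ∧ b = d) ∨ (a = d ∧ b = c)

lemma SameEdge.symm_left {a b c d : ℂ} (h : SameEdge a b c d) : SameEdge b a c d := by
  unfold SameEdge at *; tauto

/-- two different edges share at most one point -/
def NoOverlap (H : SimpleGraph ℂ) : Prop :=
  ∀ a b c d, H.Adj a b → H.Adj c d → ¬ SameEdge a b c d →
    ∀ x y, x ∈ segment ℝ a b → x ∈ segment ℝ c d → y ∈ segment ℝ a b → y ∈ segment ℝ c d → x = y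

/-- vertices of the subdivision -/
def vset (H : SimpleGraph ℂ) : Set ℂ :=
  {z | (∃ w, H.Adj z w) ∨ ∃ a b c d, H.Adj a b ∧ H.Adj c d ∧ ¬ SameEdge a b c d ∧
    z ∈ segment ℝ a b ∧ z ∈ segment ℝ c d}

/-- the subdivision -/
def subG (H : SimpleGraph ℂ) : SimpleGraph ℂ where
  Adj z w := z ≠ w ∧ z ∈ vset H ∧ w ∈ vset H ∧
    (∃ a b, H.Adj a b ∧ z ∈ segment ℝ a b ∧ w ∈ segment ℝ a b) ∧
    ∀ u ∈ vset H, u ∈ segment ℝ z w → u = z ∨ u = w
  symm := ⟨by
    rintro z w ⟨h1, h2, h3, ⟨a, b, h4, h5, h6⟩, h7⟩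
    refine ⟨h1.symm, h3, h2, ⟨a, b, h4, h6, h5⟩, ?_⟩
    intro u hu hu2
    rw [segment_symm] at hu2
    exact (h7 u hu hu2).symm⟩
  loopless := ⟨fun z h => h.1 rfl⟩

/-- parametrization of the line through `a` and `b` -/
noncomputable def par (a b : ℂ) : ℝ →ᵃ[ℝ] ℂ := AffineMap.lineMap a b

lemma par_inj {a b : ℂ} (hab : a ≠ b) : Function.Injective (par a b) :=
  AffineMap.lineMap_injective ℝ hab

lemma par_zero (a b : ℂ) : par a b 0 = a := AffineMap.lineMap_apply_zero a b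

lemma par_one (a b : ℂ) : par a b 1 = b := AffineMap.lineMap_apply_one a b

lemma par_swap (a b : ℂ) (t : ℝ) : par a b t = par b a (1 - t) :=
  (AffineMap.lineMap_apply_one_sub b a t).symm ▸ rfl

lemma par_mem {a b : ℂ} (hab : a ≠ b) (α β ξ : ℝ) :
    par a b ξ ∈ segment ℝ (par a b α) (par a b β) ↔ ξ ∈ Set.uIcc α β := by
  rw [← image_segment, segment_eq_uIcc, (par_inj hab).mem_set_image]

lemma exists_par {a b z : ℂ} (hz : z ∈ segment ℝ a b) : ∃ t, 0 ≤ t ∧ t ≤ 1 ∧ par a b t = z := by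
  rw [segment_eq_image_lineMap] at hz
  obtain ⟨t, ht, rfl⟩ := hz
  exact ⟨t, ht.1, ht.2, rfl⟩

lemma par_mem_seg {a b : ℂ} {t : ℝ} (h0 : 0 ≤ t) (h1 : t ≤ 1) : par a b t ∈ segment ℝ a b := by
  rw [segment_eq_image_lineMap]
  exact ⟨t, ⟨h0, h1⟩, rfl⟩

lemma segment_sub {a b z w : ℂ} (hz : z ∈ segment ℝ a b) (hw : w ∈ segment ℝ a b) :
    segment ℝ z w ⊆ segment ℝ a b :=
  (convex_segment a b).segment_subset hz hw

lemma dir_self_right (z : ℂ) : dir z z = 0 := by simp [dir]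

lemma dir_par {a b : ℂ} {s t : ℝ} (hst : s < t) :
    dir (par a b s) (par a b t) = (b - a) / ((‖b - a‖ : ℝ) : ℂ) := by
  have h1 : par a b t - par a b s = ((t - s : ℝ) : ℂ) * (b - a) := by
    simp only [par, AffineMap.lineMap_apply, vsub_eq_sub, vadd_eq_add, Complex.real_smul]
    push_cast
    ring
  unfold dir
  rw [h1, norm_mul, Complex.norm_real, Real.norm_of_nonneg (by linarith)]
  push_cast
  have h2 : ((t : ℂ) - (s : ℂ)) ≠ 0 := by
    rw [sub_ne_zero]; exact_mod_cast hst.ne'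
  rw [mul_div_mul_left _ _ h2]

lemma dir_par' {a b : ℂ} {s t : ℝ} (hst : t < s) :
    dir (par a b s) (par a b t) = -((b - a) / ((‖b - a‖ : ℝ) : ℂ)) := by
  have h1 : par a b t - par a b s = -(((s - t : ℝ) : ℂ) * (b - a)) := by
    simp only [par, AffineMap.lineMap_apply, vsub_eq_sub, vadd_eq_add, Complex.real_smul]
    push_cast
    ring
  unfold dir
  rw [h1, norm_neg, norm_mul, Complex.norm_real, Real.norm_of_nonneg (by linarith)]
  push_cast
  have h2 : ((s : ℂ) - (t : ℂ)) ≠ 0 := by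
    rw [sub_ne_zero]; exact_mod_cast hst.ne'
  rw [neg_div, mul_div_mul_left _ _ h2]

lemma real_case {α β γ δ ξ : ℝ} (h1 : γ ∈ Set.uIcc α β → γ = α ∨ γ = β)
    (h2 : δ ∈ Set.uIcc α β → δ = α ∨ δ = β) (h3 : α ∈ Set.uIcc γ δ → α = γ ∨ α = δ)
    (h4 : β ∈ Set.uIcc γ δ → β = γ ∨ β = δ) (hx : ξ ∈ Set.uIcc α β) (hx' : ξ ∈ Set.uIcc γ δ)
    (hne : ¬ ((α = γ ∧ β = δ) ∨ (α = δ ∧ β = γ))) :
    (ξ = α ∨ ξ = β) ∧ (ξ = γ ∨ ξ = δ) := by
  rw [Set.mem_uIcc] at *
  grind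

variable {H : SimpleGraph ℂ}

lemma vset_of_adj {a b : ℂ} (h : H.Adj a b) : a ∈ vset H := Or.inl ⟨b, h⟩

lemma vset_of_adj' {a b : ℂ} (h : H.Adj a b) : b ∈ vset H := Or.inl ⟨a, h.symm⟩

lemma vset_finite (hfin : {p : ℂ × ℂ | H.Adj p.1 p.2}.Finite) (hov : NoOverlap H) :
    (vset H).Finite := by
  have h1 : {z | ∃ w, H.Adj z w}.Finite := by
    refine (hfin.image Prod.fst).subset ?_
    rintro z ⟨w, hw⟩
    exact ⟨(z, w), hw, rfl⟩
  have h2 : {z | ∃ a b c d, H.Adj a b ∧ H.Adj c d ∧ ¬ SameEdge a b c d ∧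
      z ∈ segment ℝ a b ∧ z ∈ segment ℝ c d}.Finite := by
    have h3 : (⋃ p ∈ {p : ℂ × ℂ | H.Adj p.1 p.2}, ⋃ q ∈ {p : ℂ × ℂ | H.Adj p.1 p.2},
        {z | ¬ SameEdge p.1 p.2 q.1 q.2 ∧ z ∈ segment ℝ p.1 p.2 ∧ z ∈ segment ℝ q.1 q.2}).Finite := by
      refine hfin.biUnion (fun p hp => hfin.biUnion (fun q hq => ?_))
      apply Set.Subsingleton.finite
      rintro x ⟨hx1, hx2, hx3⟩ y ⟨_, hy2, hy3⟩
      exact hov _ _ _ _ hp hq hx1 x y hx2 hx3 hy2 hy3
    refine h3.subset ?_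
    rintro z ⟨a, b, c, d, h4, h5, h6, h7, h8⟩
    simp only [Set.mem_iUnion]
    exact ⟨(a, b), h4, (c, d), h5, h6, h7, h8⟩
  exact h1.union h2

lemma subG_no_interior {a b v : ℂ} (h : (subG H).Adj a b) (hv : v ∈ vset H)
    (hv2 : v ∈ segment ℝ a b) : v = a ∨ v = b := h.2.2.2.2 v hv hv2

lemma subG_noncross {z w z' w' : ℂ} (h : (subG H).Adj z w)
    (h' : (subG H).Adj z' w') (hne : ¬ ((z = z' ∧ w = w') ∨ (z = w' ∧ w = z'))) (x : ℂ)
    (hx : x ∈ segment ℝ z w) (hx' : x ∈ segment ℝ z' w') :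
    (x = z ∨ x = w) ∧ (x = z' ∨ x = w') := by
  obtain ⟨hzw, hz, hw, ⟨a, b, hab, hza, hwa⟩, hno⟩ := h
  obtain ⟨hzw', hz', hw', ⟨a', b', hab', hza', hwa'⟩, hno'⟩ := h'
  by_cases hsame : SameEdge a b a' b'
  · have hseg : segment ℝ a' b' = segment ℝ a b := by
      rcases hsame with ⟨rfl, rfl⟩ | ⟨rfl, rfl⟩
      · rfl
      · exact segment_symm _ _ _
    rw [hseg] at hza' hwa'
    have hne' : a ≠ b := hab.ne
    obtain ⟨α, -, -, rfl⟩ := exists_par hza
    obtain ⟨β, -, -, rfl⟩ := exists_par hwa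
    obtain ⟨γ, -, -, rfl⟩ := exists_par hza'
    obtain ⟨δ, -, -, rfl⟩ := exists_par hwa'
    obtain ⟨ξ, -, -, rfl⟩ := exists_par (segment_sub hza hwa hx)
    have h1 := hno _ hz'
    have h2 := hno _ hw'
    have h3 := hno' _ hz
    have h4 := hno' _ hw
    simp only [par_mem hne', (par_inj hne').eq_iff] at *
    exact real_case h1 h2 h3 h4 hx hx' hne
  · have hxv : x ∈ vset H := by
      refine Or.inr ⟨a, b, a', b', hab, hab', hsame, ?_, ?_⟩
      · exact segment_sub hza hwa hx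
      · exact segment_sub hza' hwa' hx'
    exact ⟨hno x hxv hx, hno' x hxv hx'⟩

/-- darts at `z`: ordered edges `(a,b)` with `z` on the edge and `b ≠ z` -/
def darts (H : SimpleGraph ℂ) (z : ℂ) : Set (ℂ × ℂ) :=
  {p | H.Adj p.1 p.2 ∧ z ∈ segment ℝ p.1 p.2 ∧ p.2 ≠ z}

lemma dir_eq_of_mem {z w b : ℂ} (hw : w ∈ segment ℝ z b) (hwz : w ≠ z) :
    dir z w = dir z b := by
  obtain ⟨t, ht0, ht1, rfl⟩ := exists_par hw
  have h0 : 0 < t := by
    rcases ht0.lt_or_eq with h | h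
    · exact h
    · exfalso; apply hwz; rw [← h, par_zero]
  have e1 := dir_par (a := z) (b := b) h0
  have e2 := dir_par (a := z) (b := b) (s := 0) (t := 1) one_pos
  rw [par_zero] at e1 e2
  rw [par_one] at e2
  rw [e1, e2]

lemma exists_nearest (hfin : (vset H).Finite) {z : ℂ} (hz : z ∈ vset H) {p : ℂ × ℂ}
    (hp : p ∈ darts H z) : ∃ w, w ∈ segment ℝ z p.2 ∧ (subG H).Adj z w := by
  obtain ⟨hadj, hzs, hne⟩ := hp
  set W : Set ℂ := {u | u ∈ vset H ∧ u ∈ segment ℝ z p.2 ∧ u ≠ z} with hW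
  have hWf : W.Finite := hfin.subset (fun u hu => hu.1)
  have hWn : W.Nonempty := ⟨p.2, vset_of_adj' hadj, right_mem_segment _ _ _, hne⟩
  obtain ⟨w, hwW, hwmin⟩ := Set.exists_min_image W (fun u => ‖u - z‖) hWf hWn
  refine ⟨w, hwW.2.1, hwW.2.2.symm, hz, hwW.1, ⟨p.1, p.2, hadj, hzs, ?_⟩, ?_⟩
  · exact segment_sub hzs (right_mem_segment _ _ _) hwW.2.1
  · intro u hu hu2
    by_cases huz : u = z
    · exact Or.inl huz
    · right
      have huW : u ∈ W := by
        refine ⟨hu, ?_, huz⟩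
        exact segment_sub (left_mem_segment _ _ _) hwW.2.1 hu2
      have h1 := hwmin u huW
      obtain ⟨t, ht0, ht1, rfl⟩ := exists_par hu2
      have h2 : par z w t - z = (t : ℂ) * (w - z) := by
        simp only [par, AffineMap.lineMap_apply, vsub_eq_sub, vadd_eq_add, Complex.real_smul]
        ring
      rw [h2, norm_mul, Complex.norm_real, Real.norm_of_nonneg ht0] at h1
      have h3 : 0 < ‖w - z‖ := by
        rw [norm_pos_iff, sub_ne_zero]; exact hwW.2.2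
      have h4 : 1 ≤ t := by
        by_contra hcon
        push Not at hcon
        nlinarith
      have h5 : t = 1 := le_antisymm ht1 h4
      rw [h5, par_one]

open Classical in
/-- the neighbour of `z` along a dart -/
noncomputable def nbr (H : SimpleGraph ℂ) (z : ℂ) (p : ℂ × ℂ) : ℂ :=
  if h : ∃ w, w ∈ segment ℝ z p.2 ∧ (subG H).Adj z w then h.choose else z

lemma nbr_spec (hfin : (vset H).Finite) {z : ℂ} (hz : z ∈ vset H) {p : ℂ × ℂ}
    (hp : p ∈ darts H z) : nbr H z p ∈ segment ℝ z p.2 ∧ (subG H).Adj z (nbr H z p) := by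
  have h := exists_nearest hfin hz hp
  unfold nbr
  rw [dif_pos h]
  exact h.choose_spec

lemma nbr_bijOn (hfin : (vset H).Finite) (hov : NoOverlap H) {z : ℂ} (hz : z ∈ vset H) :
    Set.BijOn (nbr H z) (darts H z) ((subG H).neighborSet z) := by
  refine ⟨?_, ?_, ?_⟩
  · intro p hp
    exact (nbr_spec hfin hz hp).2
  · intro p hp q hq hpq
    obtain ⟨hp1, hp2⟩ := nbr_spec hfin hz hp
    obtain ⟨hq1, hq2⟩ := nbr_spec hfin hz hq
    rw [← hpq] at hq1 hq2
    set w := nbr H z p with hw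
    obtain ⟨hpa, hpz, hpn⟩ := hp
    obtain ⟨hqa, hqz, hqn⟩ := hq
    have hwp : w ∈ segment ℝ p.1 p.2 := segment_sub hpz (right_mem_segment _ _ _) hp1
    have hwq : w ∈ segment ℝ q.1 q.2 := segment_sub hqz (right_mem_segment _ _ _) hq1
    have hzw : z ≠ w := hp2.1
    by_cases hs : SameEdge p.1 p.2 q.1 q.2
    · rcases hs with ⟨h1, h2⟩ | ⟨h1, h2⟩
      · exact Prod.ext h1 h2
      · exfalso
        obtain ⟨a, b⟩ := p
        obtain ⟨a', b'⟩ := q
        simp only at *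
        subst h1 h2
        have hab : a ≠ b := hpa.ne
        obtain ⟨ζ, hζ0, hζ1, hζ⟩ := exists_par hpz
        obtain ⟨ω, hω0, hω1, hω⟩ := exists_par hwp
        have e1 : ω ∈ Set.uIcc ζ 1 := by
          rw [← par_mem hab, hζ, hω, par_one]; exact hp1
        have e2 : ω ∈ Set.uIcc ζ 0 := by
          rw [← par_mem hab, hζ, hω, par_zero]; exact hq1
        apply hzw
        rw [← hζ, ← hω]
        rw [Set.uIcc_of_le hζ1] at e1
        rw [Set.uIcc_of_ge hζ0] at e2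
        have : ζ = ω := le_antisymm e1.1 e2.2
        rw [this]
    · exfalso
      exact hzw (hov _ _ _ _ hpa hqa hs z w hpz hqz hwp hwq)
  · intro w hw
    obtain ⟨hzw, -, hwv, ⟨a, b, hab, hza, hwa⟩, hno⟩ := hw
    have hne : a ≠ b := hab.ne
    -- key: if the dart `(a,b)` has `w` on the segment from `z` to `b`
    have key : ∀ a b : ℂ, H.Adj a b → z ∈ segment ℝ a b → w ∈ segment ℝ z b →
        ∃ p ∈ darts H z, nbr H z p = w := by
      intro a b hab hza hwb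
      have hbz : b ≠ z := by
        rintro rfl
        rw [segment_same] at hwb
        exact hzw (Set.mem_singleton_iff.1 hwb).symm
      have hd : (a, b) ∈ darts H z := ⟨hab, hza, hbz⟩
      refine ⟨(a, b), hd, ?_⟩
      obtain ⟨h1, h2⟩ := nbr_spec hfin hz hd
      set w' := nbr H z (a, b) with hw'
      simp only at h1
      obtain ⟨s, hs0, hs1, hs⟩ := exists_par h1
      obtain ⟨t, ht0, ht1, ht⟩ := exists_par hwb
      have hzb : z ≠ b := hbz.symm
      rcases le_total s t with hst | hst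
      · have e1 : w' ∈ segment ℝ z w := by
          have e0 := (par_mem hzb 0 t s).2 (by rw [Set.uIcc_of_le ht0]; exact ⟨hs0, hst⟩)
          rwa [hs, ht, par_zero] at e0
        rcases hno w' h2.2.2.1 e1 with h3 | h3
        · exact absurd h3.symm h2.1
        · exact h3
      · have e1 : w ∈ segment ℝ z w' := by
          have e0 := (par_mem hzb 0 s t).2 (by rw [Set.uIcc_of_le hs0]; exact ⟨ht0, hst⟩)
          rwa [hs, ht, par_zero] at e0
        rcases h2.2.2.2.2 w hwv e1 with h3 | h3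
        · exact absurd h3.symm hzw
        · exact h3.symm
    obtain ⟨ζ, hζ0, hζ1, hζ⟩ := exists_par hza
    obtain ⟨ω, hω0, hω1, hω⟩ := exists_par hwa
    rcases le_total ζ ω with h | h
    · apply key a b hab hza
      have e0 := (par_mem hne ζ 1 ω).2 (by rw [Set.uIcc_of_le hζ1]; exact ⟨h, hω1⟩)
      rwa [hζ, hω, par_one] at e0
    · apply key b a hab.symm (by rwa [segment_symm])
      have e0 := (par_mem hne ζ 0 ω).2 (by rw [Set.uIcc_of_ge hζ0]; exact ⟨hω0, h⟩)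
      rwa [hζ, hω, par_zero] at e0

lemma darts_finite (hfin : {p : ℂ × ℂ | H.Adj p.1 p.2}.Finite) (z : ℂ) : (darts H z).Finite :=
  hfin.subset (fun _ hp => hp.1)

/-- the darts starting at `z` itself -/
def darts0 (H : SimpleGraph ℂ) (z : ℂ) : Set (ℂ × ℂ) := {p | H.Adj p.1 p.2 ∧ p.1 = z}

/-- the darts of edges passing through `z` -/
def darts1 (H : SimpleGraph ℂ) (z : ℂ) : Set (ℂ × ℂ) :=
  {p | H.Adj p.1 p.2 ∧ z ∈ segment ℝ p.1 p.2 ∧ p.1 ≠ z ∧ p.2 ≠ z}

lemma darts_eq (z : ℂ) : darts H z = darts0 H z ∪ darts1 H z := by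
  ext ⟨a, b⟩
  simp only [darts, darts0, darts1, Set.mem_union, Set.mem_setOf_eq]
  constructor
  · rintro ⟨h1, h2, h3⟩
    by_cases h : a = z
    · exact Or.inl ⟨h1, h⟩
    · exact Or.inr ⟨h1, h2, h, h3⟩
  · rintro (⟨h1, h2⟩ | ⟨h1, h2, h3, h4⟩)
    · subst h2
      exact ⟨h1, left_mem_segment _ _ _, h1.ne'⟩
    · exact ⟨h1, h2, h4⟩

lemma dir_add_dir {a b z : ℂ} (hz : z ∈ segment ℝ a b) (hza : a ≠ z) (hzb : b ≠ z) :
    dir z a + dir z b = 0 := by
  obtain ⟨t, ht0, ht1, rfl⟩ := exists_par hz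
  have h0 : 0 < t := by
    rcases ht0.lt_or_eq with h | h
    · exact h
    · exfalso; apply hza; rw [← h, par_zero]
  have h1 : t < 1 := by
    rcases ht1.lt_or_eq with h | h
    · exact h
    · exfalso; apply hzb; rw [h, par_one]
  have e1 := dir_par (a := a) (b := b) h1
  have e2 := dir_par' (a := a) (b := b) h0
  rw [par_one] at e1
  rw [par_zero] at e2
  rw [e1, e2]
  ring

lemma finsum_darts1 (hfin : {p : ℂ × ℂ | H.Adj p.1 p.2}.Finite) (z : ℂ) :
    ∑ᶠ p ∈ darts1 H z, dir z p.2 = 0 := by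
  have hf : (darts1 H z).Finite := hfin.subset (fun _ hp => hp.1)
  rw [finsum_mem_eq_finite_toFinset_sum _ hf]
  refine Finset.sum_involution (fun p _ => p.swap) ?_ ?_ ?_ ?_
  · rintro ⟨a, b⟩ hp
    rw [Set.Finite.mem_toFinset] at hp
    obtain ⟨h1, h2, h3, h4⟩ := hp
    have := dir_add_dir h2 h3 h4
    simp only [Prod.swap] at *
    rw [add_comm]; exact this
  · rintro ⟨a, b⟩ hp _ heq
    rw [Set.Finite.mem_toFinset] at hp
    simp only [Prod.swap, Prod.mk.injEq] at heq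
    exact hp.1.ne heq.2
  · rintro ⟨a, b⟩ hp
    rw [Set.Finite.mem_toFinset] at hp ⊢
    obtain ⟨h1, h2, h3, h4⟩ := hp
    refine ⟨h1.symm, ?_, h4, h3⟩
    simp only [Prod.swap] at *
    rwa [segment_symm]
  · rintro ⟨a, b⟩ hp
    rfl

lemma bijOn_darts0 (z : ℂ) :
    Set.BijOn (fun w => (z, w)) (H.neighborSet z) (darts0 H z) := by
  refine ⟨?_, ?_, ?_⟩
  · intro w hw
    exact ⟨hw, rfl⟩
  · intro w _ w' _ h
    exact (Prod.mk.inj h).2
  · rintro ⟨a, b⟩ ⟨h1, h2⟩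
    simp only at h2
    subst h2
    exact ⟨b, h1, rfl⟩

theorem finsum_subG (hfin : {p : ℂ × ℂ | H.Adj p.1 p.2}.Finite) (hov : NoOverlap H) {z : ℂ}
    (hz : z ∈ vset H) :
    ∑ᶠ w ∈ (subG H).neighborSet z, dir z w = ∑ᶠ w ∈ H.neighborSet z, dir z w := by
  have hv := vset_finite hfin hov
  have h1 : ∑ᶠ p ∈ darts H z, dir z p.2 = ∑ᶠ w ∈ (subG H).neighborSet z, dir z w := by
    refine finsum_mem_eq_of_bijOn (nbr H z) (nbr_bijOn hv hov hz) ?_
    intro p hp
    obtain ⟨h2, h3⟩ := nbr_spec hv hz hp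
    exact (dir_eq_of_mem h2 h3.1.symm).symm
  have h2 : ∑ᶠ w ∈ H.neighborSet z, dir z w = ∑ᶠ p ∈ darts0 H z, dir z p.2 :=
    finsum_mem_eq_of_bijOn (fun w => (z, w)) (bijOn_darts0 z) (fun w _ => rfl)
  rw [← h1, h2, darts_eq, finsum_mem_union, finsum_darts1 hfin, add_zero]
  · rw [Set.disjoint_left]
    rintro p ⟨_, hp2⟩ ⟨_, _, hp3, _⟩
    exact hp3 hp2
  · exact hfin.subset (fun _ hp => hp.1)
  · exact hfin.subset (fun _ hp => hp.1)

lemma ncard_subG (hfin : {p : ℂ × ℂ | H.Adj p.1 p.2}.Finite) (hov : NoOverlap H) {z : ℂ}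
    (hz : z ∈ vset H) : ((subG H).neighborSet z).ncard = (darts H z).ncard := by
  have hb := nbr_bijOn (vset_finite hfin hov) hov hz
  rw [← hb.image_eq, hb.injOn.ncard_image]

lemma ncard_le_subG (hfin : {p : ℂ × ℂ | H.Adj p.1 p.2}.Finite) (hov : NoOverlap H) {z : ℂ}
    (hz : z ∈ vset H) : (H.neighborSet z).ncard ≤ ((subG H).neighborSet z).ncard := by
  rw [ncard_subG hfin hov hz]
  have hb := bijOn_darts0 (H := H) z
  have h1 : (H.neighborSet z).ncard = (darts0 H z).ncard := by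
    rw [← hb.image_eq, hb.injOn.ncard_image]
  rw [h1]
  apply Set.ncard_le_ncard _ (darts_finite hfin z)
  rw [darts_eq]
  exact Set.subset_union_left

lemma three_le_subG (hfin : {p : ℂ × ℂ | H.Adj p.1 p.2}.Finite) (hov : NoOverlap H) {z : ℂ}
    (hz : z ∈ vset H) (hn : ¬ ∃ w, H.Adj z w) : 3 ≤ ((subG H).neighborSet z).ncard := by
  rw [ncard_subG hfin hov hz]
  rcases hz with h | ⟨a, b, c, d, hab, hcd, hs, hza, hzc⟩
  · exact absurd h hn
  · have hza' : a ≠ z := by rintro rfl; exact hn ⟨b, hab⟩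
    have hzb' : b ≠ z := by rintro rfl; exact hn ⟨a, hab.symm⟩
    have hzd' : d ≠ z := by rintro rfl; exact hn ⟨c, hcd.symm⟩
    have hsub : ({(a, b), (b, a), (c, d)} : Set (ℂ × ℂ)) ⊆ darts H z := by
      intro p hp
      simp only [Set.mem_insert_iff, Set.mem_singleton_iff] at hp
      rcases hp with rfl | rfl | rfl
      · exact ⟨hab, hza, hzb'⟩
      · exact ⟨hab.symm, by simpa only [segment_symm] using hza, hza'⟩
      · exact ⟨hcd, hzc, hzd'⟩
    have hcard : ({(a, b), (b, a), (c, d)} : Set (ℂ × ℂ)).ncard = 3 := by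
      rw [Set.ncard_eq_three]
      refine ⟨_, _, _, ?_, ?_, ?_, rfl⟩
      · intro h
        exact hab.ne (Prod.mk.inj h).1
      · intro h
        exact hs (Or.inl ⟨(Prod.mk.inj h).1, (Prod.mk.inj h).2⟩)
      · intro h
        exact hs (Or.inr ⟨(Prod.mk.inj h).2, (Prod.mk.inj h).1⟩)
    rw [← hcard]
    exact Set.ncard_le_ncard hsub (darts_finite hfin z)

/-- From a straight-line drawing without overlaps to a planar net. -/
theorem exists_net (H : SimpleGraph ℂ) (hfin : {p : ℂ × ℂ | H.Adj p.1 p.2}.Finite)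
    (hov : NoOverlap H) (S : Finset ℂ) (hSv : ∀ v ∈ S, ∃ w, H.Adj v w)
    (hS : ∀ v ∈ S, ∑ᶠ w ∈ H.neighborSet v, dir v w ≠ 0)
    (hB : ∀ v, (∃ w, H.Adj v w) → v ∉ S → 3 ≤ (H.neighborSet v).ncard ∧
      ∑ᶠ w ∈ H.neighborSet v, dir v w = 0) (N : ℕ)
    (hN : N < Set.ncard {v | (∃ w, H.Adj v w) ∧ v ∉ S}) :
    ∃ V : Finset ℂ, ∃ G : SimpleGraph ℂ,
        (∀ a b : ℂ, G.Adj a b → a ∈ V ∧ b ∈ V) ∧
        (∀ a b c d : ℂ, G.Adj a b → G.Adj c d →
            ¬ ((a = c ∧ b = d) ∨ (a = d ∧ b = c)) →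
            ∀ x ∈ segment ℝ a b ∩ segment ℝ c d, (x = a ∨ x = b) ∧ (x = c ∨ x = d)) ∧
        (∀ a b v : ℂ, G.Adj a b → v ∈ V → v ∈ segment ℝ a b → v = a ∨ v = b) ∧
        S ⊆ V ∧
        (∀ v ∈ V, v ∈ S ↔
            ¬ (3 ≤ (G.neighborSet v).ncard ∧
               (∑ᶠ w ∈ G.neighborSet v, (w - v) / ((‖w - v‖ : ℝ) : ℂ)) = 0)) ∧
        N < Set.ncard {v : ℂ | v ∈ V ∧ 3 ≤ (G.neighborSet v).ncard ∧
               (∑ᶠ w ∈ G.neighborSet v, (w - v) / ((‖w - v‖ : ℝ) : ℂ)) = 0} := by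
  have hv := vset_finite hfin hov
  have hbal : ∀ v ∈ vset H, v ∉ S → 3 ≤ ((subG H).neighborSet v).ncard ∧
      ∑ᶠ w ∈ (subG H).neighborSet v, dir v w = 0 := by
    intro v hvv hvS
    by_cases h : ∃ w, H.Adj v w
    · obtain ⟨h1, h2⟩ := hB v h hvS
      refine ⟨h1.trans (ncard_le_subG hfin hov hvv), ?_⟩
      rw [finsum_subG hfin hov hvv, h2]
    · refine ⟨three_le_subG hfin hov hvv h, ?_⟩
      rw [finsum_subG hfin hov hvv]
      have : H.neighborSet v = ∅ := by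
        ext w
        simp only [SimpleGraph.mem_neighborSet, Set.mem_empty_iff_false, iff_false]
        exact fun hw => h ⟨w, hw⟩
      rw [this, finsum_mem_empty]
  refine ⟨hv.toFinset, subG H, ?_, ?_, ?_, ?_, ?_, ?_⟩
  · rintro a b ⟨-, h1, h2, -⟩
    exact ⟨hv.mem_toFinset.2 h1, hv.mem_toFinset.2 h2⟩
  · rintro a b c d h1 h2 h3 x ⟨h4, h5⟩
    exact subG_noncross h1 h2 h3 x h4 h5
  · intro a b v h1 h2 h3
    exact subG_no_interior h1 (hv.mem_toFinset.1 h2) h3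
  · intro v hvS
    rw [hv.mem_toFinset]
    exact Or.inl (hSv v hvS)
  · intro v hvV
    rw [hv.mem_toFinset] at hvV
    constructor
    · intro hvS hcon
      have h1 := finsum_subG hfin hov hvV
      exact hS v hvS (h1 ▸ hcon.2)
    · intro hcon
      by_contra hvS
      exact hcon (hbal v hvV hvS)
  · refine hN.trans_le (Set.ncard_le_ncard ?_ ?_)
    · rintro v ⟨h1, h2⟩
      exact ⟨hv.mem_toFinset.2 (Or.inl h1), hbal v (Or.inl h1) h2⟩
    · exact (hv.toFinset.finite_toSet).subset (fun v hv => hv.1)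

end Pool.Agent.Lib.MP_1ce9e9_gt
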