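import Mathlib
import Pool.Agent.Lib.MP_1ce9e9_gt.Radii
import Pool.Agent.Lib.MP_1ce9e9_gt.Subdivide

set_option autoImplicit false

/-!
# The ring-shaped drawing
-/

namespace Pool.Agent.Lib.MP_1ce9e9_gt

/-- properties of the radii -/
structure Rad (N : ℕ) (r : ℕ → ℝ) : Prop where
  zero : r 0 = 11 / 10
  last : r (N + 1) = 9 / 10
  lb : ∀ k, 9 / 10 ≤ r k
  ub : ∀ k, r k ≤ 11 / 10
  anti : ∀ k ≤ N, r (k + 1) < r k
  eq : ∀ j < N, hh (r j) (r (j + 1)) + hh (r (j + 2)) (r (j + 1)) = ff (r (j + 1))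

variable {N : ℕ} {r : ℕ → ℝ}

lemma Rad.lt (h : Rad N r) {k l : ℕ} (hkl : k < l) (hl : l ≤ N + 1) : r l < r k := by
  induction l, hkl using Nat.le_induction with
  | base => exact h.anti k (by omega)
  | succ l hl' ih => exact (h.anti l (by omega)).trans (ih (by omega))

lemma Rad.inj (h : Rad N r) {k l : ℕ} (hk : k ≤ N + 1) (hl : l ≤ N + 1) (he : r k = r l) :
    k = l := by
  rcases lt_trichotomy k l with h1 | h1 | h1
  · have := h.lt h1 hl; linarith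
  · exact h1
  · have := h.lt h1 hk; linarith

lemma Rad.pos (h : Rad N r) (k : ℕ) : 0 < r k := by linarith [h.lb k]

/-- edges between consecutive rings -/
def ZE (N : ℕ) (r : ℕ → ℝ) (z w : ℂ) (α β : ℝ) : Prop :=
  ∃ σ τ : ℝ, σ ^ 2 = 1 ∧ τ ^ 2 = 1 ∧ ∃ k l : ℕ, k ≤ N + 1 ∧ l ≤ N + 1 ∧ (l = k + 1 ∨ k = l + 1) ∧
    z = ⟨σ * r k, 0⟩ ∧ w = ⟨0, τ * r l⟩ ∧ α = σ / r k ∧ β = τ / r l

/-- edges from the horizontal ring vertices to the fixed points -/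
def RE (N : ℕ) (r : ℕ → ℝ) (z w : ℂ) (α β : ℝ) : Prop :=
  ∃ σ τ : ℝ, σ ^ 2 = 1 ∧ τ ^ 2 = 1 ∧ ∃ k : ℕ, 1 ≤ k ∧ k ≤ N ∧ ∃ q : ℝ, (q = 1 / 2 ∨ q = 3 / 2) ∧
    z = ⟨σ * r k, 0⟩ ∧ w = ⟨2 * σ, τ * q⟩ ∧ α = σ / r k ∧ β = τ * (r k - 2) / (r k * q)

/-- edges from the vertical ring vertices to the fixed points -/
def TE (N : ℕ) (r : ℕ → ℝ) (z w : ℂ) (α β : ℝ) : Prop :=
  ∃ σ τ : ℝ, σ ^ 2 = 1 ∧ τ ^ 2 = 1 ∧ ∃ k : ℕ, 1 ≤ k ∧ k ≤ N ∧ ∃ q : ℝ, (q = 1 / 2 ∨ q = 3 / 2) ∧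
    z = ⟨0, σ * r k⟩ ∧ w = ⟨τ * q, 2 * σ⟩ ∧ β = σ / r k ∧ α = τ * (r k - 2) / (r k * q)

def Edge (N : ℕ) (r : ℕ → ℝ) (z w : ℂ) (α β : ℝ) : Prop :=
  ZE N r z w α β ∨ RE N r z w α β ∨ TE N r z w α β

/-- point on line -/
def OnLine (α β : ℝ) (z : ℂ) : Prop := α * z.re + β * z.im = 1

lemma Edge.line (h : Rad N r) {z w : ℂ} {α β : ℝ} (he : Edge N r z w α β) :
    OnLine α β z ∧ OnLine α β w := by
  rcases he with ⟨σ, τ, hσ, hτ, k, l, hk, hl, hkl, rfl, rfl, rfl, rfl⟩ |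
    ⟨σ, τ, hσ, hτ, k, hk, hk', q, hq, rfl, rfl, rfl, rfl⟩ |
    ⟨σ, τ, hσ, hτ, k, hk, hk', q, hq, rfl, rfl, rfl, rfl⟩
  · have h1 := (h.pos k).ne'
    have h2 := (h.pos l).ne'
    unfold OnLine
    constructor
    · field_simp; simp [hσ]
    · field_simp; simp [hτ]
  · have h1 := (h.pos k).ne'
    have h2 : q ≠ 0 := by rcases hq with rfl | rfl <;> norm_num
    unfold OnLine
    constructor
    · field_simp; simp [hσ]
    · field_simp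
      linear_combination 2 * hσ + (r k - 2) * hτ
  · have h1 := (h.pos k).ne'
    have h2 : q ≠ 0 := by rcases hq with rfl | rfl <;> norm_num
    unfold OnLine
    constructor
    · field_simp; simp [hσ]
    · field_simp
      linear_combination 2 * hσ + (r k - 2) * hτ

lemma OnLine.seg {α β : ℝ} {z w x : ℂ} (hz : OnLine α β z) (hw : OnLine α β w)
    (hx : x ∈ segment ℝ z w) : OnLine α β x := by
  obtain ⟨s, t, hs, ht, hst, rfl⟩ := hx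
  unfold OnLine at *
  simp only [Complex.add_re, Complex.add_im, Complex.real_smul, Complex.mul_re, Complex.mul_im,
    Complex.ofReal_re, Complex.ofReal_im]
  linear_combination s * hz + t * hw + hst

lemma line_unique {α β α' β' : ℝ} {x y : ℂ} (hxy : x ≠ y) (h1 : OnLine α β x) (h2 : OnLine α β y)
    (h3 : OnLine α' β' x) (h4 : OnLine α' β' y) : α = α' ∧ β = β' := by
  unfold OnLine at *
  have hdet : x.re * y.im - x.im * y.re ≠ 0 := by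
    intro hdet
    apply hxy
    apply Complex.ext
    · linear_combination (-x.re) * h2 + y.re * h1 + (β) * hdet
    · linear_combination (-x.im) * h2 + y.im * h1 - (α) * hdet
  constructor
  · have : (α - α') * (x.re * y.im - x.im * y.re) = 0 := by
      linear_combination y.im * (h1 - h3) - x.im * (h2 - h4)
    rcases mul_eq_zero.1 this with h | h
    · linarith
    · exact absurd h hdet
  · have : (β - β') * (x.re * y.im - x.im * y.re) = 0 := by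
      linear_combination x.re * (h2 - h4) - y.re * (h1 - h3)
    rcases mul_eq_zero.1 this with h | h
    · linarith
    · exact absurd h hdet

lemma sign_div {σ σ' a b : ℝ} (hσ : σ ^ 2 = 1) (hσ' : σ' ^ 2 = 1) (ha : 0 < a) (hb : 0 < b)
    (h : σ / a = σ' / b) : a = b ∧ σ = σ' := by
  have h1 : σ * b = σ' * a := by
    field_simp at h
    linarith
  have h2 : b ^ 2 = a ^ 2 := by
    have : (σ * b) ^ 2 = (σ' * a) ^ 2 := by rw [h1]
    rw [mul_pow, mul_pow, hσ, hσ'] at this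
    linarith
  have h3 : a = b := by
    have := (sq_eq_sq₀ hb.le ha.le).1 h2
    exact this.symm
  refine ⟨h3, ?_⟩
  rw [h3] at h1
  exact mul_right_cancel₀ hb.ne' h1

/-- separation between ring-type lines and the others -/
lemma sep (h : Rad N r) (k l : ℕ) {q : ℝ} (hq : q = 1 / 2 ∨ q = 3 / 2) :
    r k * q ≠ (2 - r k) * r l := by
  have h1 := h.lb k
  have h2 := h.ub k
  have h3 := h.lb l
  have h4 := h.ub l
  rcases hq with rfl | rfl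
  · intro he; nlinarith
  · intro he; nlinarith

lemma sep' (h : Rad N r) {τ τ' : ℝ} (hτ : τ ^ 2 = 1) (hτ' : τ' ^ 2 = 1) (k l : ℕ) {q : ℝ}
    (hq : q = 1 / 2 ∨ q = 3 / 2) : τ / r l ≠ τ' * (r k - 2) / (r k * q) := by
  intro he
  have hk := h.pos k
  have hl := h.pos l
  have hq0 : 0 < q := by rcases hq with rfl | rfl <;> norm_num
  have h1 : τ * (r k * q) = τ' * (r k - 2) * r l := by
    field_simp at he
    linarith
  have h2 : (r k * q) ^ 2 = ((2 - r k) * r l) ^ 2 := by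
    have : (τ * (r k * q)) ^ 2 = (τ' * (r k - 2) * r l) ^ 2 := by rw [h1]
    have e1 : (τ * (r k * q)) ^ 2 = τ ^ 2 * (r k * q) ^ 2 := by ring
    have e2 : (τ' * (r k - 2) * r l) ^ 2 = τ' ^ 2 * ((2 - r k) * r l) ^ 2 := by ring
    rw [e1, e2, hτ, hτ'] at this
    linarith
  have h3 : r k * q = (2 - r k) * r l := by
    apply (sq_eq_sq₀ (by positivity) _).1 h2
    have := h.ub k
    apply mul_nonneg _ hl.le
    linarith
  exact sep h k l hq h3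

lemma q_eq (h : Rad N r) {τ τ' : ℝ} (hτ : τ ^ 2 = 1) (hτ' : τ' ^ 2 = 1) (k : ℕ) {q q' : ℝ}
    (hq : q = 1 / 2 ∨ q = 3 / 2) (hq' : q' = 1 / 2 ∨ q' = 3 / 2)
    (he : τ * (r k - 2) / (r k * q) = τ' * (r k - 2) / (r k * q')) : τ = τ' ∧ q = q' := by
  have hk := h.pos k
  have hq0 : 0 < q := by rcases hq with rfl | rfl <;> norm_num
  have hq0' : 0 < q' := by rcases hq' with rfl | rfl <;> norm_num
  have hk2 : r k - 2 ≠ 0 := by have := h.ub k; intro h0; linarith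
  have h1 : τ / q = τ' / q' := by
    field_simp at he
    field_simp
    linarith
  have := sign_div hτ hτ' hq0 hq0' h1
  exact ⟨this.2, this.1⟩

lemma Edge.unique (h : Rad N r) {z w z' w' : ℂ} {α β : ℝ} (he : Edge N r z w α β)
    (he' : Edge N r z' w' α β) : z = z' ∧ w = w' := by
  rcases he with ⟨σ, τ, hσ, hτ, k, l, hk, hl, hkl, rfl, rfl, hα, hβ⟩ |
    ⟨σ, τ, hσ, hτ, k, hk, hk', q, hq, rfl, rfl, hα, hβ⟩ |
    ⟨σ, τ, hσ, hτ, k, hk, hk', q, hq, rfl, rfl, hβ, hα⟩ <;>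
  rcases he' with ⟨σ', τ', hσ', hτ', k', l', hk1, hl1, hkl', rfl, rfl, hα', hβ'⟩ |
    ⟨σ', τ', hσ', hτ', k', hk1, hk1', q', hq', rfl, rfl, hα', hβ'⟩ |
    ⟨σ', τ', hσ', hτ', k', hk1, hk1', q', hq', rfl, rfl, hβ', hα'⟩
  · obtain ⟨h1, h2⟩ := sign_div hσ hσ' (h.pos k) (h.pos k') (hα.symm.trans hα')
    obtain ⟨h3, h4⟩ := sign_div hτ hτ' (h.pos l) (h.pos l') (hβ.symm.trans hβ')
    rw [h1, h2, h3, h4]
    exact ⟨rfl, rfl⟩
  · exact absurd (hβ.symm.trans hβ') (sep' h hτ hτ' k' l hq')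
  · exact absurd (hα.symm.trans hα') (sep' h hσ hτ' k' k hq')
  · exact absurd (hβ'.symm.trans hβ) (sep' h hτ' hτ k l' hq)
  · obtain ⟨h1, h2⟩ := sign_div hσ hσ' (h.pos k) (h.pos k') (hα.symm.trans hα')
    have hkk : k = k' := h.inj (by omega) (by omega) h1
    subst hkk
    obtain ⟨h3, h4⟩ := q_eq h hτ hτ' k hq hq' (hβ.symm.trans hβ')
    rw [h2, h3, h4]
    exact ⟨rfl, rfl⟩
  · exact absurd (hα.symm.trans hα') (sep' h hσ hτ' k' k hq')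
  · exact absurd (hα'.symm.trans hα) (sep' h hσ' hτ k k' hq)
  · exact absurd (hα'.symm.trans hα) (sep' h hσ' hτ k k' hq)
  · obtain ⟨h1, h2⟩ := sign_div hσ hσ' (h.pos k) (h.pos k') (hβ.symm.trans hβ')
    have hkk : k = k' := h.inj (by omega) (by omega) h1
    subst hkk
    obtain ⟨h3, h4⟩ := q_eq h hτ hτ' k hq hq' (hα.symm.trans hα')
    rw [h2, h3, h4]
    exact ⟨rfl, rfl⟩

lemma Edge.ne (h : Rad N r) {z w : ℂ} {α β : ℝ} (he : Edge N r z w α β) : z ≠ w := by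
  rcases he with ⟨σ, τ, hσ, hτ, k, l, hk, hl, hkl, rfl, rfl, rfl, rfl⟩ |
    ⟨σ, τ, hσ, hτ, k, hk, hk', q, hq, rfl, rfl, rfl, rfl⟩ |
    ⟨σ, τ, hσ, hτ, k, hk, hk', q, hq, rfl, rfl, rfl, rfl⟩
  · intro he
    have h1 := (Complex.ext_iff.1 he).1
    simp only at h1
    have h2 := h.pos k
    have h3 : σ ≠ 0 := by rintro rfl; norm_num at hσ
    rcases mul_eq_zero.1 h1 with h4 | h4
    · exact h3 h4
    · linarith
  · intro he
    have h1 := (Complex.ext_iff.1 he).2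
    simp only at h1
    have h3 : τ ≠ 0 := by rintro rfl; norm_num at hτ
    rcases mul_eq_zero.1 h1.symm with h4 | h4
    · exact h3 h4
    · rcases hq with rfl | rfl <;> norm_num at h4
  · intro he
    have h1 := (Complex.ext_iff.1 he).1
    simp only at h1
    have h3 : τ ≠ 0 := by rintro rfl; norm_num at hτ
    rcases mul_eq_zero.1 h1.symm with h4 | h4
    · exact h3 h4
    · rcases hq with rfl | rfl <;> norm_num at h4

/-- the drawing -/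
def ringG (h : Rad N r) : SimpleGraph ℂ where
  Adj z w := ∃ α β, Edge N r z w α β ∨ Edge N r w z α β
  symm := ⟨by
    rintro z w ⟨α, β, h⟩
    exact ⟨α, β, h.symm⟩⟩
  loopless := ⟨by
    rintro z ⟨α, β, h1 | h1⟩
    · exact h1.ne h rfl
    · exact h1.ne h rfl⟩

lemma ringG_noOverlap (h : Rad N r) : NoOverlap (ringG h) := by
  rintro a b c d ⟨α, β, h1⟩ ⟨α', β', h2⟩ hs x y hx1 hx2 hy1 hy2
  by_contra hxy
  have l1 : OnLine α β a ∧ OnLine α β b := by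
    rcases h1 with h1 | h1
    · exact h1.line h
    · exact (h1.line h).symm
  have l2 : OnLine α' β' c ∧ OnLine α' β' d := by
    rcases h2 with h2 | h2
    · exact h2.line h
    · exact (h2.line h).symm
  obtain ⟨e1, e2⟩ := line_unique hxy (l1.1.seg l1.2 hx1) (l1.1.seg l1.2 hy1)
    (l2.1.seg l2.2 hx2) (l2.1.seg l2.2 hy2)
  subst e1 e2
  apply hs
  rcases h1 with h1 | h1 <;> rcases h2 with h2 | h2
  · exact Or.inl (h1.unique h h2)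
  · exact Or.inr (h1.unique h h2)
  · exact Or.inr (h1.unique h h2).symm
  · exact Or.inl (h1.unique h h2).symm

/-- possible coordinates -/
def XX (N : ℕ) (r : ℕ → ℝ) : Set ℝ :=
  {x | ∃ y, (y = 0 ∨ y = 2 ∨ y = 1 / 2 ∨ y = 3 / 2 ∨ ∃ k ≤ N + 1, y = r k) ∧ (x = y ∨ x = -y)}

lemma XX_finite (N : ℕ) (r : ℕ → ℝ) : (XX N r).Finite := by
  have h1 : {y : ℝ | y = 0 ∨ y = 2 ∨ y = 1 / 2 ∨ y = 3 / 2 ∨ ∃ k ≤ N + 1, y = r k}.Finite := by
    have h2 : {y : ℝ | ∃ k ≤ N + 1, y = r k}.Finite := by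
      refine ((Set.finite_Iic (N + 1)).image r).subset ?_
      rintro y ⟨k, hk, rfl⟩
      exact ⟨k, hk, rfl⟩
    refine ((Set.finite_singleton (0 : ℝ)).union ((Set.finite_singleton (2 : ℝ)).union
      ((Set.finite_singleton (1 / 2 : ℝ)).union ((Set.finite_singleton (3 / 2 : ℝ)).union
        h2)))).subset ?_
    intro y hy
    rcases hy with h | h | h | h | h
    · exact Or.inl h
    · exact Or.inr (Or.inl h)
    · exact Or.inr (Or.inr (Or.inl h))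
    · exact Or.inr (Or.inr (Or.inr (Or.inl h)))
    · exact Or.inr (Or.inr (Or.inr (Or.inr h)))
  refine (h1.union (h1.image (fun x => -x))).subset ?_
  rintro x ⟨y, hy, rfl | rfl⟩
  · exact Or.inl hy
  · exact Or.inr ⟨y, hy, rfl⟩

lemma sign_cases {σ : ℝ} (hσ : σ ^ 2 = 1) : σ = 1 ∨ σ = -1 := by
  have h1 : (σ - 1) * (σ + 1) = 0 := by linear_combination hσ
  rcases mul_eq_zero.1 h1 with h | h
  · left; linarith
  · right; linarith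

lemma mul_mem_XX {σ y : ℝ} (hσ : σ ^ 2 = 1)
    (hy : y = 0 ∨ y = 2 ∨ y = 1 / 2 ∨ y = 3 / 2 ∨ ∃ k ≤ N + 1, y = r k) : σ * y ∈ XX N r := by
  refine ⟨y, hy, ?_⟩
  rcases sign_cases hσ with rfl | rfl
  · left; ring
  · right; ring

lemma zero_mem_XX : (0 : ℝ) ∈ XX N r := ⟨0, Or.inl rfl, Or.inl rfl⟩

lemma Edge.mem_XX {z w : ℂ} {α β : ℝ} (he : Edge N r z w α β) :
    (z.re ∈ XX N r ∧ z.im ∈ XX N r) ∧ (w.re ∈ XX N r ∧ w.im ∈ XX N r) := by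
  rcases he with ⟨σ, τ, hσ, hτ, k, l, hk, hl, hkl, rfl, rfl, rfl, rfl⟩ |
    ⟨σ, τ, hσ, hτ, k, hk, hk', q, hq, rfl, rfl, rfl, rfl⟩ |
    ⟨σ, τ, hσ, hτ, k, hk, hk', q, hq, rfl, rfl, rfl, rfl⟩
  · refine ⟨⟨mul_mem_XX hσ ?_, zero_mem_XX⟩, ⟨zero_mem_XX, mul_mem_XX hτ ?_⟩⟩
    · exact Or.inr (Or.inr (Or.inr (Or.inr ⟨k, hk, rfl⟩)))
    · exact Or.inr (Or.inr (Or.inr (Or.inr ⟨l, hl, rfl⟩)))
  · refine ⟨⟨mul_mem_XX hσ ?_, zero_mem_XX⟩, ⟨?_, mul_mem_XX hτ ?_⟩⟩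
    · exact Or.inr (Or.inr (Or.inr (Or.inr ⟨k, by omega, rfl⟩)))
    · rw [mul_comm]; exact mul_mem_XX hσ (Or.inr (Or.inl rfl))
    · rcases hq with h | h
      · exact Or.inr (Or.inr (Or.inl h))
      · exact Or.inr (Or.inr (Or.inr (Or.inl h)))
  · refine ⟨⟨zero_mem_XX, mul_mem_XX hσ ?_⟩, ⟨mul_mem_XX hτ ?_, ?_⟩⟩
    · exact Or.inr (Or.inr (Or.inr (Or.inr ⟨k, by omega, rfl⟩)))
    · rcases hq with h | h
      · exact Or.inr (Or.inr (Or.inl h))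
      · exact Or.inr (Or.inr (Or.inr (Or.inl h)))
    · simp only
      rw [mul_comm]; exact mul_mem_XX hσ (Or.inr (Or.inl rfl))

lemma ringG_finite (h : Rad N r) : {p : ℂ × ℂ | (ringG h).Adj p.1 p.2}.Finite := by
  have hP : {z : ℂ | z.re ∈ XX N r ∧ z.im ∈ XX N r}.Finite := by
    refine (((XX_finite N r).prod (XX_finite N r)).image (fun p => (⟨p.1, p.2⟩ : ℂ))).subset ?_
    rintro z ⟨h1, h2⟩
    exact ⟨(z.re, z.im), ⟨h1, h2⟩, rfl⟩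
  refine (hP.prod hP).subset ?_
  rintro ⟨z, w⟩ ⟨α, β, h1 | h1⟩
  · exact ⟨h1.mem_XX.1, h1.mem_XX.2⟩
  · exact ⟨h1.mem_XX.2, h1.mem_XX.1⟩

/-- neighbours of a horizontal ring vertex -/
def nbh (r : ℕ → ℝ) (k : ℕ) (σ : ℝ) : Set ℂ :=
  {⟨0, r (k + 1)⟩, ⟨0, -r (k + 1)⟩, ⟨0, r (k - 1)⟩, ⟨0, -r (k - 1)⟩,
    ⟨2 * σ, 1 / 2⟩, ⟨2 * σ, -(1 / 2)⟩, ⟨2 * σ, 3 / 2⟩, ⟨2 * σ, -(3 / 2)⟩}

lemma pos_sign {σ σ' a b : ℝ} (hσ : σ ^ 2 = 1) (hσ' : σ' ^ 2 = 1) (ha : 0 < a) (hb : 0 < b)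
    (h : σ * a = σ' * b) : a = b ∧ σ = σ' := by
  have h2 : a ^ 2 = b ^ 2 := by
    have : (σ * a) ^ 2 = (σ' * b) ^ 2 := by rw [h]
    rw [mul_pow, mul_pow, hσ, hσ'] at this
    linarith
  have h3 : a = b := (sq_eq_sq₀ ha.le hb.le).1 h2
  refine ⟨h3, ?_⟩
  rw [h3] at h
  exact mul_right_cancel₀ hb.ne' h

lemma sign_mul_ne {σ a : ℝ} (hσ : σ ^ 2 = 1) (ha : 0 < a) : σ * a ≠ 0 := by
  intro h
  rcases mul_eq_zero.1 h with h | h
  · rw [h] at hσ; norm_num at hσ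
  · linarith

lemma ringG_nbh (h : Rad N r) {k : ℕ} (hk1 : 1 ≤ k) (hkN : k ≤ N) {σ : ℝ} (hσ : σ ^ 2 = 1) :
    (ringG h).neighborSet ⟨σ * r k, 0⟩ = nbh r k σ := by
  have hrk := h.pos k
  ext w
  rw [SimpleGraph.mem_neighborSet]
  constructor
  · rintro ⟨α, β, (h1 | h1 | h1) | (h1 | h1 | h1)⟩
    · obtain ⟨σ', τ, hσ', hτ, k', l, hk, hl, hkl, hz, rfl, -, -⟩ := h1
      have e1 := (Complex.ext_iff.1 hz).1
      simp only at e1
      obtain ⟨e2, e3⟩ := pos_sign hσ hσ' hrk (h.pos k') e1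
      have hkk : k = k' := h.inj (by omega) (by omega) e2
      subst hkk
      rcases hkl with rfl | h4
      · rcases sign_cases hτ with rfl | rfl
        · simp [nbh]
        · simp [nbh]
      · have h5 : l = k - 1 := by omega
        subst h5
        rcases sign_cases hτ with rfl | rfl
        · simp [nbh]
        · simp [nbh]
    · obtain ⟨σ', τ, hσ', hτ, k', hk, hk', q, hq, hz, rfl, -, -⟩ := h1
      have e1 := (Complex.ext_iff.1 hz).1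
      simp only at e1
      obtain ⟨e2, e3⟩ := pos_sign hσ hσ' hrk (h.pos k') e1
      subst e3
      rcases hq with rfl | rfl <;> rcases sign_cases hτ with rfl | rfl
      · simp [nbh]
      · simp [nbh]
      · simp [nbh]
      · have : (-1 * (3 / 2) : ℝ) = -(3 / 2) := by norm_num
        rw [this]
        simp [nbh]
    · obtain ⟨σ', τ, hσ', hτ, k', hk, hk', q, hq, hz, rfl, -, -⟩ := h1
      have e1 := (Complex.ext_iff.1 hz).1
      simp only at e1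
      exact absurd e1 (sign_mul_ne hσ hrk)
    · obtain ⟨σ', τ, hσ', hτ, k', l, hk, hl, hkl, rfl, hz, -, -⟩ := h1
      have e1 := (Complex.ext_iff.1 hz).1
      simp only at e1
      exact absurd e1 (sign_mul_ne hσ hrk)
    · obtain ⟨σ', τ, hσ', hτ, k', hk, hk', q, hq, rfl, hz, -, -⟩ := h1
      have e1 := (Complex.ext_iff.1 hz).2
      simp only at e1
      have hq0 : 0 < q := by rcases hq with rfl | rfl <;> norm_num
      exact absurd e1.symm (sign_mul_ne hτ hq0)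
    · obtain ⟨σ', τ, hσ', hτ, k', hk, hk', q, hq, rfl, hz, -, -⟩ := h1
      have e1 := (Complex.ext_iff.1 hz).2
      simp only at e1
      rw [mul_comm] at e1
      exact absurd e1.symm (sign_mul_ne hσ' (by norm_num))
  · intro hw
    simp only [nbh, Set.mem_insert_iff, Set.mem_singleton_iff] at hw
    have hm : (-1 : ℝ) ^ 2 = 1 := by norm_num
    have hp : (1 : ℝ) ^ 2 = 1 := by norm_num
    rcases hw with rfl | rfl | rfl | rfl | rfl | rfl | rfl | rfl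
    · exact ⟨_, _, Or.inl (Or.inl ⟨σ, 1, hσ, hp, k, k + 1, by omega, by omega, Or.inl rfl, rfl,
        by simp, rfl, rfl⟩)⟩
    · exact ⟨_, _, Or.inl (Or.inl ⟨σ, -1, hσ, hm, k, k + 1, by omega, by omega, Or.inl rfl, rfl,
        by simp, rfl, rfl⟩)⟩
    · exact ⟨_, _, Or.inl (Or.inl ⟨σ, 1, hσ, hp, k, k - 1, by omega, by omega, Or.inr (by omega),
        rfl, by simp, rfl, rfl⟩)⟩
    · exact ⟨_, _, Or.inl (Or.inl ⟨σ, -1, hσ, hm, k, k - 1, by omega, by omega, Or.inr (by omega),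
        rfl, by simp, rfl, rfl⟩)⟩
    · exact ⟨_, _, Or.inl (Or.inr (Or.inl ⟨σ, 1, hσ, hp, k, hk1, hkN, 1 / 2, Or.inl rfl,
        rfl, by simp, rfl, rfl⟩))⟩
    · exact ⟨_, _, Or.inl (Or.inr (Or.inl ⟨σ, -1, hσ, hm, k, hk1, hkN, 1 / 2, Or.inl rfl,
        rfl, by simp, rfl, rfl⟩))⟩
    · exact ⟨_, _, Or.inl (Or.inr (Or.inl ⟨σ, 1, hσ, hp, k, hk1, hkN, 3 / 2, Or.inr rfl,
        rfl, by simp, rfl, rfl⟩))⟩
    · exact ⟨_, _, Or.inl (Or.inr (Or.inl ⟨σ, -1, hσ, hm, k, hk1, hkN, 3 / 2, Or.inr rfl,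
        rfl, by norm_num, rfl, rfl⟩))⟩

lemma dir_pair (a x y : ℝ) :
    dir ⟨a, 0⟩ ⟨x, y⟩ + dir ⟨a, 0⟩ ⟨x, -y⟩ = ((2 * ((x - a) / √((x - a) ^ 2 + y ^ 2)) : ℝ) : ℂ) := by
  unfold dir
  have e1 : (⟨x, y⟩ - ⟨a, 0⟩ : ℂ) = ⟨x - a, y⟩ := by
    apply Complex.ext <;> simp
  have e2 : (⟨x, -y⟩ - ⟨a, 0⟩ : ℂ) = ⟨x - a, -y⟩ := by
    apply Complex.ext <;> simp
  rw [e1, e2, Complex.norm_eq_sqrt_sq_add_sq, Complex.norm_eq_sqrt_sq_add_sq]
  simp only [neg_sq]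
  rw [← add_div]
  have e3 : (⟨x - a, y⟩ + ⟨x - a, -y⟩ : ℂ) = ((2 * (x - a) : ℝ) : ℂ) := by
    apply Complex.ext
    · simp; ring
    · simp
  rw [e3, ← Complex.ofReal_div]
  congr 1
  ring

lemma finsum_nbh (h : Rad N r) {k : ℕ} (hk1 : 1 ≤ k) (hkN : k ≤ N) {σ : ℝ} (hσ : σ ^ 2 = 1)
    (f : ℂ → ℂ) : ∑ᶠ w ∈ nbh r k σ, f w =
    (f ⟨0, r (k + 1)⟩ + f ⟨0, -r (k + 1)⟩) + (f ⟨0, r (k - 1)⟩ + f ⟨0, -r (k - 1)⟩) +
    (f ⟨2 * σ, 1 / 2⟩ + f ⟨2 * σ, -(1 / 2)⟩) + (f ⟨2 * σ, 3 / 2⟩ + f ⟨2 * σ, -(3 / 2)⟩) := by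
  have h1 := h.pos (k + 1)
  have h2 := h.lt (k := k - 1) (l := k + 1) (by omega) (by omega)
  have h3 : 2 * σ ≠ 0 := by
    intro h0
    rw [mul_comm] at h0
    exact sign_mul_ne hσ (by norm_num) h0
  unfold nbh
  rw [finsum_mem_insert _ ?_ (Set.toFinite _), finsum_mem_insert _ ?_ (Set.toFinite _),
    finsum_mem_insert _ ?_ (Set.toFinite _), finsum_mem_insert _ ?_ (Set.toFinite _),
    finsum_mem_insert _ ?_ (Set.toFinite _), finsum_mem_insert _ ?_ (Set.toFinite _),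
    finsum_mem_insert _ ?_ (Set.toFinite _), finsum_mem_singleton]
  · ring
  all_goals
    simp only [Set.mem_insert_iff, Set.mem_singleton_iff, Complex.mk.injEq]
    grind

lemma three_le_nbh (h : Rad N r) {k : ℕ} (hk1 : 1 ≤ k) (hkN : k ≤ N) {σ : ℝ} :
    3 ≤ (nbh r k σ).ncard := by
  have h1 := h.pos (k + 1)
  have h2 := h.lt (k := k - 1) (l := k + 1) (by omega) (by omega)
  have hsub : ({⟨0, r (k + 1)⟩, ⟨0, -r (k + 1)⟩, ⟨0, r (k - 1)⟩} : Set ℂ) ⊆ nbh r k σ := by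
    intro z hz
    simp only [nbh, Set.mem_insert_iff, Set.mem_singleton_iff] at hz ⊢
    tauto
  have hcard : ({⟨0, r (k + 1)⟩, ⟨0, -r (k + 1)⟩, ⟨0, r (k - 1)⟩} : Set ℂ).ncard = 3 := by
    rw [Set.ncard_eq_three]
    refine ⟨_, _, _, ?_, ?_, ?_, rfl⟩
    · intro he
      have := (Complex.ext_iff.1 he).2
      simp only at this
      linarith
    · intro he
      have := (Complex.ext_iff.1 he).2
      simp only at this
      linarith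
    · intro he
      have := (Complex.ext_iff.1 he).2
      simp only at this
      linarith
  rw [← hcard]
  exact Set.ncard_le_ncard hsub (by unfold nbh; exact Set.toFinite _)

lemma hh_eq {s t σ : ℝ} (hσ : σ ^ 2 = 1) :
    (0 - σ * t) / √((0 - σ * t) ^ 2 + s ^ 2) = -σ * hh s t := by
  have e1 : (0 - σ * t) ^ 2 + s ^ 2 = s ^ 2 + t ^ 2 := by linear_combination t ^ 2 * hσ
  rw [e1]
  unfold hh
  ring

lemma ff_eq {t σ q : ℝ} (hσ : σ ^ 2 = 1) :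
    (2 * σ - σ * t) / √((2 * σ - σ * t) ^ 2 + q ^ 2) =
      σ * ((2 - t) / √((2 - t) ^ 2 + q ^ 2)) := by
  have e1 : (2 * σ - σ * t) ^ 2 + q ^ 2 = (2 - t) ^ 2 + q ^ 2 := by
    linear_combination (2 - t) ^ 2 * hσ
  rw [e1]
  ring

lemma balanced_h (h : Rad N r) {k : ℕ} (hk1 : 1 ≤ k) (hkN : k ≤ N) {σ : ℝ} (hσ : σ ^ 2 = 1) :
    ∑ᶠ w ∈ (ringG h).neighborSet ⟨σ * r k, 0⟩, dir ⟨σ * r k, 0⟩ w = 0 := by
  rw [ringG_nbh h hk1 hkN hσ, finsum_nbh h hk1 hkN hσ, dir_pair, dir_pair, dir_pair, dir_pair,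
    ← Complex.ofReal_add, ← Complex.ofReal_add, ← Complex.ofReal_add]
  rw [hh_eq hσ, hh_eq hσ, ff_eq hσ, ff_eq hσ]
  obtain ⟨j, rfl⟩ : ∃ j, k = j + 1 := ⟨k - 1, by omega⟩
  have h1 := h.eq j (by omega)
  simp only [Nat.add_sub_cancel]
  unfold ff at h1
  have : (2 * (-σ * hh (r (j + 1 + 1)) (r (j + 1))) + 2 * (-σ * hh (r j) (r (j + 1))) +
      2 * (σ * ((2 - r (j + 1)) / √((2 - r (j + 1)) ^ 2 + (1 / 2) ^ 2))) +
      2 * (σ * ((2 - r (j + 1)) / √((2 - r (j + 1)) ^ 2 + (3 / 2) ^ 2)))) = 0 := by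
    have h2 : r (j + 2) = r (j + 1 + 1) := rfl
    rw [h2] at h1
    linear_combination (-2 * σ) * h1
  rw [this]
  simp

/-- the reflection exchanging the coordinates -/
def sw : ℂ →+ ℂ where
  toFun z := ⟨z.im, z.re⟩
  map_zero' := by apply Complex.ext <;> simp
  map_add' z w := by apply Complex.ext <;> simp

lemma sw_mk (x y : ℝ) : sw ⟨x, y⟩ = ⟨y, x⟩ := rfl

lemma sw_sw (z : ℂ) : sw (sw z) = z := rfl

lemma sw_inj : Function.Injective sw := fun z w h => by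
  rw [← sw_sw z, h, sw_sw]

lemma norm_sw (z : ℂ) : ‖sw z‖ = ‖z‖ := by
  rw [Complex.norm_eq_sqrt_sq_add_sq, Complex.norm_eq_sqrt_sq_add_sq, add_comm]
  rfl

lemma sw_div (z : ℂ) (c : ℝ) : sw (z / (c : ℂ)) = sw z / (c : ℂ) := by
  apply Complex.ext
  · rw [Complex.div_ofReal_re]
    show (z / (c : ℂ)).im = z.im / c
    rw [Complex.div_ofReal_im]
  · rw [Complex.div_ofReal_im]
    show (z / (c : ℂ)).re = z.re / c
    rw [Complex.div_ofReal_re]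

lemma dir_sw (z w : ℂ) : dir (sw z) (sw w) = sw (dir z w) := by
  unfold dir
  rw [sw_div, ← map_sub, norm_sw]

lemma adj_sw (h : Rad N r) {z w : ℂ} (hzw : (ringG h).Adj z w) : (ringG h).Adj (sw z) (sw w) := by
  obtain ⟨α, β, hE⟩ := hzw
  have key : ∀ z w : ℂ, Edge N r z w α β →
      Edge N r (sw z) (sw w) β α ∨ Edge N r (sw w) (sw z) β α := by
    rintro z w (⟨σ, τ, hσ, hτ, k, l, hk, hl, hkl, rfl, rfl, rfl, rfl⟩ |
      ⟨σ, τ, hσ, hτ, k, hk, hk', q, hq, rfl, rfl, rfl, rfl⟩ |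
      ⟨σ, τ, hσ, hτ, k, hk, hk', q, hq, rfl, rfl, rfl, rfl⟩)
    · exact Or.inr (Or.inl ⟨τ, σ, hτ, hσ, l, k, hl, hk, hkl.symm, rfl, rfl, rfl, rfl⟩)
    · exact Or.inl (Or.inr (Or.inr ⟨σ, τ, hσ, hτ, k, hk, hk', q, hq, rfl, rfl, rfl, rfl⟩))
    · exact Or.inl (Or.inr (Or.inl ⟨σ, τ, hσ, hτ, k, hk, hk', q, hq, rfl, rfl, rfl, rfl⟩))
  rcases hE with hE | hE
  · exact ⟨β, α, key z w hE⟩
  · exact ⟨β, α, (key w z hE).symm⟩

lemma neighborSet_sw (h : Rad N r) (z : ℂ) :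
    (ringG h).neighborSet (sw z) = sw '' (ringG h).neighborSet z := by
  ext w
  simp only [Set.mem_image, SimpleGraph.mem_neighborSet]
  constructor
  · intro hw
    exact ⟨sw w, by simpa only [sw_sw] using adj_sw h hw, sw_sw w⟩
  · rintro ⟨w, hw, rfl⟩
    exact adj_sw h hw

lemma neighborSet_finite (h : Rad N r) (z : ℂ) : ((ringG h).neighborSet z).Finite := by
  refine ((ringG_finite h).image Prod.snd).subset ?_
  intro w hw
  exact ⟨(z, w), hw, rfl⟩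

lemma finsum_sw (h : Rad N r) (z : ℂ) :
    ∑ᶠ w ∈ (ringG h).neighborSet (sw z), dir (sw z) w =
      sw (∑ᶠ w ∈ (ringG h).neighborSet z, dir z w) := by
  rw [neighborSet_sw, finsum_mem_image sw_inj.injOn,
    AddMonoidHom.map_finsum_mem _ _ (neighborSet_finite h z)]
  apply finsum_mem_congr rfl
  intro w _
  exact dir_sw z w

lemma balanced_v (h : Rad N r) {k : ℕ} (hk1 : 1 ≤ k) (hkN : k ≤ N) {σ : ℝ} (hσ : σ ^ 2 = 1) :
    ∑ᶠ w ∈ (ringG h).neighborSet ⟨0, σ * r k⟩, dir ⟨0, σ * r k⟩ w = 0 := by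
  have h1 := finsum_sw h ⟨σ * r k, 0⟩
  rw [balanced_h h hk1 hkN hσ, map_zero] at h1
  exact h1

lemma three_le_h (h : Rad N r) {k : ℕ} (hk1 : 1 ≤ k) (hkN : k ≤ N) {σ : ℝ} (hσ : σ ^ 2 = 1) :
    3 ≤ ((ringG h).neighborSet ⟨σ * r k, 0⟩).ncard := by
  rw [ringG_nbh h hk1 hkN hσ]
  exact three_le_nbh h hk1 hkN

lemma three_le_v (h : Rad N r) {k : ℕ} (hk1 : 1 ≤ k) (hkN : k ≤ N) {σ : ℝ} (hσ : σ ^ 2 = 1) :
    3 ≤ ((ringG h).neighborSet ⟨0, σ * r k⟩).ncard := by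
  have h1 := three_le_h h hk1 hkN hσ
  have h2 := neighborSet_sw h ⟨σ * r k, 0⟩
  rw [sw_mk] at h2
  rw [h2, sw_inj.injOn.ncard_image]
  exact h1

/-- the fixed set of unbalanced vertices -/
def SS : Set ℂ := {z | ∃ σ τ : ℝ, σ ^ 2 = 1 ∧ τ ^ 2 = 1 ∧
  ((z = ⟨σ * (11 / 10), 0⟩ ∨ z = ⟨0, σ * (11 / 10)⟩) ∨ (z = ⟨σ * (9 / 10), 0⟩ ∨
    z = ⟨0, σ * (9 / 10)⟩) ∨ ∃ q : ℝ, (q = 1 / 2 ∨ q = 3 / 2) ∧
      (z = ⟨2 * σ, τ * q⟩ ∨ z = ⟨τ * q, 2 * σ⟩))}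

lemma SS_finite : SS.Finite := by
  have h1 : ({1, -1} : Set ℝ).Finite := Set.toFinite _
  have h2 : ({1 / 2, 3 / 2} : Set ℝ).Finite := Set.toFinite _
  have hs : ∀ {σ : ℝ}, σ ^ 2 = 1 → σ ∈ ({1, -1} : Set ℝ) := by
    intro σ hσ
    rcases sign_cases hσ with rfl | rfl <;> simp
  have a1 : ((fun σ : ℝ => (⟨σ * (11 / 10), 0⟩ : ℂ)) '' {1, -1}).Finite := h1.image _
  have a2 : ((fun σ : ℝ => (⟨0, σ * (11 / 10)⟩ : ℂ)) '' {1, -1}).Finite := h1.image _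
  have a3 : ((fun σ : ℝ => (⟨σ * (9 / 10), 0⟩ : ℂ)) '' {1, -1}).Finite := h1.image _
  have a4 : ((fun σ : ℝ => (⟨0, σ * (9 / 10)⟩ : ℂ)) '' {1, -1}).Finite := h1.image _
  have a5 : ((fun p : (ℝ × ℝ) × ℝ => (⟨2 * p.1.1, p.1.2 * p.2⟩ : ℂ)) ''
    (({1, -1} ×ˢ {1, -1}) ×ˢ {1 / 2, 3 / 2})).Finite := ((h1.prod h1).prod h2).image _
  have a6 : ((fun p : (ℝ × ℝ) × ℝ => (⟨p.1.2 * p.2, 2 * p.1.1⟩ : ℂ)) ''
    (({1, -1} ×ˢ {1, -1}) ×ˢ {1 / 2, 3 / 2})).Finite := ((h1.prod h1).prod h2).image _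
  refine (a1.union (a2.union (a3.union (a4.union (a5.union a6))))).subset ?_
  rintro z ⟨σ, τ, hσ, hτ, (rfl | rfl) | (rfl | rfl) | ⟨q, hq, rfl | rfl⟩⟩
  · exact Or.inl ⟨σ, hs hσ, rfl⟩
  · exact Or.inr (Or.inl ⟨σ, hs hσ, rfl⟩)
  · exact Or.inr (Or.inr (Or.inl ⟨σ, hs hσ, rfl⟩))
  · exact Or.inr (Or.inr (Or.inr (Or.inl ⟨σ, hs hσ, rfl⟩)))
  · exact Or.inr (Or.inr (Or.inr (Or.inr (Or.inl ⟨((σ, τ), q), ⟨⟨hs hσ, hs hτ⟩, hq⟩, rfl⟩))))
  · exact Or.inr (Or.inr (Or.inr (Or.inr (Or.inr ⟨((σ, τ), q), ⟨⟨hs hσ, hs hτ⟩, hq⟩, rfl⟩))))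

/-- the vertices of the drawing -/
lemma vertex_cases (h : Rad N r) {z : ℂ} (hz : ∃ w, (ringG h).Adj z w) :
    z ∈ SS ∨ ∃ k, 1 ≤ k ∧ k ≤ N ∧ ∃ σ : ℝ, σ ^ 2 = 1 ∧ (z = ⟨σ * r k, 0⟩ ∨ z = ⟨0, σ * r k⟩) := by
  have ring_case : ∀ k ≤ N + 1, ∀ σ : ℝ, σ ^ 2 = 1 → ∀ z : ℂ,
      (z = ⟨σ * r k, 0⟩ ∨ z = ⟨0, σ * r k⟩) →
      z ∈ SS ∨ ∃ k, 1 ≤ k ∧ k ≤ N ∧ ∃ σ : ℝ, σ ^ 2 = 1 ∧
        (z = ⟨σ * r k, 0⟩ ∨ z = ⟨0, σ * r k⟩) := by
    intro k hk σ hσ z hz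
    rcases Nat.eq_zero_or_pos k with h0 | h0
    · subst h0
      rw [h.zero] at hz
      exact Or.inl ⟨σ, σ, hσ, hσ, Or.inl hz⟩
    · rcases Nat.lt_or_ge N k with h1 | h1
      · have : k = N + 1 := by omega
        subst this
        rw [h.last] at hz
        exact Or.inl ⟨σ, σ, hσ, hσ, Or.inr (Or.inl hz)⟩
      · exact Or.inr ⟨k, h0, h1, σ, hσ, hz⟩
  obtain ⟨w, α, β, hE | hE⟩ := hz
  · rcases hE with ⟨σ, τ, hσ, hτ, k, l, hk, hl, hkl, rfl, rfl, -, -⟩ |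
      ⟨σ, τ, hσ, hτ, k, hk, hk', q, hq, rfl, rfl, -, -⟩ |
      ⟨σ, τ, hσ, hτ, k, hk, hk', q, hq, rfl, rfl, -, -⟩
    · exact ring_case k hk σ hσ _ (Or.inl rfl)
    · exact ring_case k (by omega) σ hσ _ (Or.inl rfl)
    · exact ring_case k (by omega) σ hσ _ (Or.inr rfl)
  · rcases hE with ⟨σ, τ, hσ, hτ, k, l, hk, hl, hkl, rfl, rfl, -, -⟩ |
      ⟨σ, τ, hσ, hτ, k, hk, hk', q, hq, rfl, rfl, -, -⟩ |
      ⟨σ, τ, hσ, hτ, k, hk, hk', q, hq, rfl, rfl, -, -⟩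
    · exact ring_case l hl τ hτ _ (Or.inr rfl)
    · exact Or.inl ⟨σ, τ, hσ, hτ, Or.inr (Or.inr ⟨q, hq, Or.inl rfl⟩)⟩
    · exact Or.inl ⟨σ, τ, hσ, hτ, Or.inr (Or.inr ⟨q, hq, Or.inr rfl⟩)⟩

/-- pairing with `z` -/
noncomputable def pairing (z : ℂ) : ℂ →+ ℝ where
  toFun u := u.re * z.re + u.im * z.im
  map_zero' := by simp
  map_add' u v := by simp; ring

lemma pairing_apply (z u : ℂ) : pairing z u = u.re * z.re + u.im * z.im := rfl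

lemma finsum_ne_zero {A : Set ℂ} {z : ℂ} (hf : A.Finite) (hne : A.Nonempty)
    (hA : ∀ w ∈ A, w.re * z.re + w.im * z.im < z.re ^ 2 + z.im ^ 2) :
    ∑ᶠ w ∈ A, dir z w ≠ 0 := by
  intro h0
  have h1 : pairing z (∑ᶠ w ∈ A, dir z w) = 0 := by rw [h0, map_zero]
  rw [finsum_mem_eq_finite_toFinset_sum _ hf, map_sum] at h1
  have h2 : ∑ w ∈ hf.toFinset, pairing z (dir z w) < 0 := by
    apply Finset.sum_neg
    · intro w hw
      rw [hf.mem_toFinset] at hw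
      have h3 := hA w hw
      have hwz : w ≠ z := by
        rintro rfl
        nlinarith
      have h4 : 0 < ‖w - z‖ := by rw [norm_pos_iff, sub_ne_zero]; exact hwz
      rw [pairing_apply]
      unfold dir
      rw [Complex.div_ofReal_re, Complex.div_ofReal_im, Complex.sub_re, Complex.sub_im]
      have h5 : (w.re - z.re) / ‖w - z‖ * z.re + (w.im - z.im) / ‖w - z‖ * z.im =
          ((w.re * z.re + w.im * z.im) - (z.re ^ 2 + z.im ^ 2)) / ‖w - z‖ := by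
        field_simp
        ring
      rw [h5]
      exact div_neg_of_neg_of_pos (by linarith) h4
    · rwa [hf.toFinset_nonempty]
  linarith

lemma nbr_outer (h : Rad N r) {k : ℕ} (hk : k = 0 ∨ k = N + 1) {σ : ℝ} (hσ : σ ^ 2 = 1) {w : ℂ}
    (hw : (ringG h).Adj ⟨σ * r k, 0⟩ w) : w.re = 0 := by
  have hrk := h.pos k
  obtain ⟨α, β, (h1 | h1 | h1) | (h1 | h1 | h1)⟩ := hw
  · obtain ⟨σ', τ, hσ', hτ, k', l, hk, hl, hkl, hz, rfl, -, -⟩ := h1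
    rfl
  · exfalso
    obtain ⟨σ', τ, hσ', hτ, k', hk1, hk2, q, hq, hz, rfl, -, -⟩ := h1
    have e1 := (Complex.ext_iff.1 hz).1
    simp only at e1
    obtain ⟨e2, e3⟩ := pos_sign hσ hσ' hrk (h.pos k') e1
    have := h.inj (by omega) (by omega) e2
    omega
  · obtain ⟨σ', τ, hσ', hτ, k', hk, hk', q, hq, hz, rfl, -, -⟩ := h1
    have e1 := (Complex.ext_iff.1 hz).1
    simp only at e1
    exact absurd e1 (sign_mul_ne hσ hrk)
  · obtain ⟨σ', τ, hσ', hτ, k', l, hk, hl, hkl, rfl, hz, -, -⟩ := h1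
    have e1 := (Complex.ext_iff.1 hz).1
    simp only at e1
    exact absurd e1 (sign_mul_ne hσ hrk)
  · obtain ⟨σ', τ, hσ', hτ, k', hk, hk', q, hq, rfl, hz, -, -⟩ := h1
    have e1 := (Complex.ext_iff.1 hz).2
    simp only at e1
    have hq0 : 0 < q := by rcases hq with rfl | rfl <;> norm_num
    exact absurd e1.symm (sign_mul_ne hτ hq0)
  · exfalso
    obtain ⟨σ', τ, hσ', hτ, k', hk, hk', q, hq, rfl, hz, -, -⟩ := h1
    have e1 := (Complex.ext_iff.1 hz).2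
    simp only at e1
    rw [mul_comm] at e1
    exact absurd e1.symm (sign_mul_ne hσ' (by norm_num))

lemma nbr_far (h : Rad N r) {σ τ q : ℝ} (hσ : σ ^ 2 = 1) (hτ : τ ^ 2 = 1)
    (hq : q = 1 / 2 ∨ q = 3 / 2) {w : ℂ}
    (hw : (ringG h).Adj ⟨2 * σ, τ * q⟩ w) : ∃ k, w = ⟨σ * r k, 0⟩ := by
  have hq0 : 0 < q := by rcases hq with rfl | rfl <;> norm_num
  have h2s : 2 * σ ≠ 0 := by
    rw [mul_comm]; exact sign_mul_ne hσ (by norm_num)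
  obtain ⟨α, β, (h1 | h1 | h1) | (h1 | h1 | h1)⟩ := hw
  · exfalso
    obtain ⟨σ', τ', hσ', hτ', k', l, hk, hl, hkl, hz, rfl, -, -⟩ := h1
    exact sign_mul_ne hτ hq0 (Complex.ext_iff.1 hz).2
  · exfalso
    obtain ⟨σ', τ', hσ', hτ', k', hk1, hk2, q', hq', hz, rfl, -, -⟩ := h1
    exact sign_mul_ne hτ hq0 (Complex.ext_iff.1 hz).2
  · exfalso
    obtain ⟨σ', τ', hσ', hτ', k', hk1, hk2, q', hq', hz, rfl, -, -⟩ := h1
    exact h2s (Complex.ext_iff.1 hz).1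
  · exfalso
    obtain ⟨σ', τ', hσ', hτ', k', l, hk, hl, hkl, rfl, hz, -, -⟩ := h1
    exact h2s (Complex.ext_iff.1 hz).1
  · obtain ⟨σ', τ', hσ', hτ', k', hk1, hk2, q', hq', rfl, hz, -, -⟩ := h1
    have e1 := (Complex.ext_iff.1 hz).1
    simp only at e1
    have e2 : σ = σ' := by linarith
    subst e2
    exact ⟨k', rfl⟩
  · exfalso
    obtain ⟨σ', τ', hσ', hτ', k', hk1, hk2, q', hq', rfl, hz, -, -⟩ := h1
    have e1 := (Complex.ext_iff.1 hz).1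
    simp only at e1
    have hq0' : 0 < q' := by rcases hq' with rfl | rfl <;> norm_num
    rw [mul_comm] at e1
    obtain ⟨e2, -⟩ := pos_sign hσ hτ' (by norm_num) hq0' e1
    rcases hq' with rfl | rfl <;> norm_num at e2

lemma adj_sw_iff (h : Rad N r) {z : ℂ} : (∃ w, (ringG h).Adj (sw z) w) ↔
    ∃ w, (ringG h).Adj z w := by
  constructor
  · rintro ⟨w, hw⟩
    exact ⟨sw w, by simpa only [sw_sw] using adj_sw h hw⟩
  · rintro ⟨w, hw⟩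
    exact ⟨sw w, adj_sw h hw⟩

lemma unbal_aux (h : Rad N r) (hN : 1 ≤ N) {z : ℂ} (hz : ∃ σ τ : ℝ, σ ^ 2 = 1 ∧ τ ^ 2 = 1 ∧
    (z = ⟨σ * (11 / 10), 0⟩ ∨ z = ⟨σ * (9 / 10), 0⟩ ∨
      ∃ q : ℝ, (q = 1 / 2 ∨ q = 3 / 2) ∧ z = ⟨2 * σ, τ * q⟩)) :
    (∃ w, (ringG h).Adj z w) ∧ ∑ᶠ w ∈ (ringG h).neighborSet z, dir z w ≠ 0 := by
  have hp : (1 : ℝ) ^ 2 = 1 := by norm_num
  obtain ⟨σ, τ, hσ, hτ, hz | hz | ⟨q, hq, hz⟩⟩ := hz
  · rw [← h.zero] at hz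
    subst hz
    have hex : ∃ w, (ringG h).Adj ⟨σ * r 0, 0⟩ w :=
      ⟨⟨0, 1 * r 1⟩, _, _, Or.inl (Or.inl ⟨σ, 1, hσ, hp, 0, 1, by omega, by omega, Or.inl rfl,
        rfl, rfl, rfl, rfl⟩)⟩
    refine ⟨hex, finsum_ne_zero (neighborSet_finite h _) hex ?_⟩
    intro w hw
    rw [nbr_outer h (Or.inl rfl) hσ hw]
    simp only [mul_zero, zero_mul, add_zero]
    rw [mul_pow, hσ]
    have := h.pos 0
    positivity
  · rw [← h.last] at hz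
    subst hz
    have hex : ∃ w, (ringG h).Adj ⟨σ * r (N + 1), 0⟩ w :=
      ⟨⟨0, 1 * r N⟩, _, _, Or.inl (Or.inl ⟨σ, 1, hσ, hp, N + 1, N, by omega, by omega,
        Or.inr rfl, rfl, rfl, rfl, rfl⟩)⟩
    refine ⟨hex, finsum_ne_zero (neighborSet_finite h _) hex ?_⟩
    intro w hw
    rw [nbr_outer h (Or.inr rfl) hσ hw]
    simp only [mul_zero, zero_mul, add_zero]
    rw [mul_pow, hσ]
    have := h.pos (N + 1)
    positivity
  · subst hz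
    have hex : ∃ w, (ringG h).Adj ⟨2 * σ, τ * q⟩ w :=
      ⟨⟨σ * r 1, 0⟩, _, _, Or.inr (Or.inr (Or.inl ⟨σ, τ, hσ, hτ, 1, le_refl _, hN, q, hq,
        rfl, rfl, rfl, rfl⟩))⟩
    refine ⟨hex, finsum_ne_zero (neighborSet_finite h _) hex ?_⟩
    intro w hw
    obtain ⟨k, rfl⟩ := nbr_far h hσ hτ hq hw
    simp only [zero_mul, add_zero]
    have h1 := h.ub k
    have h2 : σ * r k * (2 * σ) = 2 * r k := by linear_combination (2 * r k) * hσ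
    have h3 : (2 * σ) ^ 2 = 4 := by linear_combination 4 * hσ
    rw [h2, h3]
    nlinarith [sq_nonneg (τ * q)]

lemma unbal (h : Rad N r) (hN : 1 ≤ N) {z : ℂ} (hz : z ∈ SS) :
    (∃ w, (ringG h).Adj z w) ∧ ∑ᶠ w ∈ (ringG h).neighborSet z, dir z w ≠ 0 := by
  have key : ∀ z : ℂ, (∃ σ τ : ℝ, σ ^ 2 = 1 ∧ τ ^ 2 = 1 ∧
      (z = ⟨σ * (11 / 10), 0⟩ ∨ z = ⟨σ * (9 / 10), 0⟩ ∨
        ∃ q : ℝ, (q = 1 / 2 ∨ q = 3 / 2) ∧ z = ⟨2 * σ, τ * q⟩)) →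
      (∃ w, (ringG h).Adj (sw z) w) ∧
        ∑ᶠ w ∈ (ringG h).neighborSet (sw z), dir (sw z) w ≠ 0 := by
    intro z hz
    obtain ⟨h1, h2⟩ := unbal_aux h hN hz
    refine ⟨(adj_sw_iff h).2 h1, ?_⟩
    rw [finsum_sw]
    intro h3
    apply h2
    apply sw_inj
    rw [h3, map_zero]
  obtain ⟨σ, τ, hσ, hτ, (rfl | rfl) | (rfl | rfl) | ⟨q, hq, rfl | rfl⟩⟩ := hz
  · exact unbal_aux h hN ⟨σ, τ, hσ, hτ, Or.inl rfl⟩
  · exact key _ ⟨σ, τ, hσ, hτ, Or.inl rfl⟩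
  · exact unbal_aux h hN ⟨σ, τ, hσ, hτ, Or.inr (Or.inl rfl)⟩
  · exact key _ ⟨σ, τ, hσ, hτ, Or.inr (Or.inl rfl)⟩
  · exact unbal_aux h hN ⟨σ, τ, hσ, hτ, Or.inr (Or.inr ⟨q, hq, rfl⟩)⟩
  · exact key _ ⟨σ, τ, hσ, hτ, Or.inr (Or.inr ⟨q, hq, rfl⟩)⟩

lemma ring_notMem_SS (h : Rad N r) {k : ℕ} (hk1 : 1 ≤ k) (hkN : k ≤ N) {σ : ℝ}
    (hσ : σ ^ 2 = 1) : (⟨σ * r k, 0⟩ : ℂ) ∉ SS := by
  intro hz
  have hrk := h.pos k
  obtain ⟨σ', τ, hσ', hτ, (hz | hz) | (hz | hz) | ⟨q, hq, hz | hz⟩⟩ := hz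
  · obtain ⟨e2, e3⟩ := pos_sign hσ hσ' hrk (by norm_num) (Complex.ext_iff.1 hz).1
    rw [← h.zero] at e2
    have := h.inj (by omega) (by omega) e2
    omega
  · exact sign_mul_ne hσ hrk (Complex.ext_iff.1 hz).1
  · obtain ⟨e2, e3⟩ := pos_sign hσ hσ' hrk (by norm_num) (Complex.ext_iff.1 hz).1
    rw [← h.last] at e2
    have := h.inj (by omega) (by omega) e2
    omega
  · exact sign_mul_ne hσ hrk (Complex.ext_iff.1 hz).1
  · have hq0 : 0 < q := by rcases hq with rfl | rfl <;> norm_num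
    exact sign_mul_ne hτ hq0 (Complex.ext_iff.1 hz).2.symm
  · have e1 := (Complex.ext_iff.1 hz).2
    simp only at e1
    rw [mul_comm] at e1
    exact sign_mul_ne hσ' (by norm_num) e1.symm

theorem main_ring (N : ℕ) : ∃ V : Finset ℂ, ∃ G : SimpleGraph ℂ,
        (∀ a b : ℂ, G.Adj a b → a ∈ V ∧ b ∈ V) ∧
        (∀ a b c d : ℂ, G.Adj a b → G.Adj c d →
            ¬ ((a = c ∧ b = d) ∨ (a = d ∧ b = c)) →
            ∀ x ∈ segment ℝ a b ∩ segment ℝ c d, (x = a ∨ x = b) ∧ (x = c ∨ x = d)) ∧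
        (∀ a b v : ℂ, G.Adj a b → v ∈ V → v ∈ segment ℝ a b → v = a ∨ v = b) ∧
        SS_finite.toFinset ⊆ V ∧
        (∀ v ∈ V, v ∈ SS_finite.toFinset ↔
            ¬ (3 ≤ (G.neighborSet v).ncard ∧
               (∑ᶠ w ∈ G.neighborSet v, (w - v) / ((‖w - v‖ : ℝ) : ℂ)) = 0)) ∧
        N < Set.ncard {v : ℂ | v ∈ V ∧ 3 ≤ (G.neighborSet v).ncard ∧
               (∑ᶠ w ∈ G.neighborSet v, (w - v) / ((‖w - v‖ : ℝ) : ℂ)) = 0} := by
  obtain ⟨r, h0, h1, hall, hanti, heq⟩ := exists_radii (N + 1)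
  have h : Rad (N + 1) r := ⟨h0, h1, fun k => (hall k).1, fun k => (hall k).2, hanti, heq⟩
  have hadj : ∀ k, 1 ≤ k → k ≤ N + 1 → ∃ w, (ringG h).Adj ⟨1 * r k, 0⟩ w := by
    intro k hk1 hkN
    have h3 := three_le_h h hk1 hkN (σ := 1) (by norm_num)
    have h4 : ((ringG h).neighborSet ⟨1 * r k, 0⟩).Nonempty := by
      apply Set.nonempty_of_ncard_ne_zero
      omega
    exact h4
  apply exists_net (ringG h) (ringG_finite h) (ringG_noOverlap h)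
  · intro v hv
    rw [SS_finite.mem_toFinset] at hv
    exact (unbal h (by omega) hv).1
  · intro v hv
    rw [SS_finite.mem_toFinset] at hv
    exact (unbal h (by omega) hv).2
  · intro v hv hvS
    rw [SS_finite.mem_toFinset] at hvS
    rcases vertex_cases h hv with h2 | ⟨k, hk1, hkN, σ, hσ, rfl | rfl⟩
    · exact absurd h2 hvS
    · exact ⟨three_le_h h hk1 hkN hσ, balanced_h h hk1 hkN hσ⟩
    · exact ⟨three_le_v h hk1 hkN hσ, balanced_v h hk1 hkN hσ⟩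
  · have hsub : (fun k => (⟨1 * r k, 0⟩ : ℂ)) '' (Set.Icc 1 (N + 1)) ⊆
        {v | (∃ w, (ringG h).Adj v w) ∧ v ∉ SS_finite.toFinset} := by
      rintro _ ⟨k, ⟨hk1, hkN⟩, rfl⟩
      refine ⟨hadj k hk1 hkN, ?_⟩
      rw [SS_finite.mem_toFinset]
      exact ring_notMem_SS h hk1 hkN (by norm_num)
    have hfin : {v | (∃ w, (ringG h).Adj v w) ∧ v ∉ SS_finite.toFinset}.Finite := by
      refine ((ringG_finite h).image Prod.fst).subset ?_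
      rintro v ⟨⟨w, hw⟩, _⟩
      exact ⟨(v, w), hw, rfl⟩
    have hinj : Set.InjOn (fun k => (⟨1 * r k, 0⟩ : ℂ)) (Set.Icc 1 (N + 1)) := by
      intro k hk l hl hkl
      have e1 := (Complex.ext_iff.1 hkl).1
      simp only [one_mul] at e1
      exact h.inj (by have := hk.2; omega) (by have := hl.2; omega) e1
    have h5 := Set.ncard_le_ncard hsub hfin
    rw [hinj.ncard_image] at h5
    have h6 : (Set.Icc 1 (N + 1)).ncard = N + 1 := by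
      rw [← Finset.coe_Icc, Set.ncard_coe_finset, Nat.card_Icc, Nat.add_sub_cancel]
    omega

end Pool.Agent.Lib.MP_1ce9e9_gt
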